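import Pool.Agent.Lib.H69.Tdlc.Top

/-!
Groups in the class `𝒮` have no nontrivial abelian subgroup with open normalizer.
-/

namespace Pool.Agent.Lib.H69.Tdlc

open Pointwise Topology

universe u

variable {G : Type u} [Group G] [TopologicalSpace G]
variable [IsTopologicalGroup G] [T2Space G] [LocallyCompactSpace G] [TotallyDisconnectedSpace G]

/-- the join of the intersections of the members of a family with `W` -/
def J (𝒜 : Set (Subgroup G)) (W : Subgroup G) : Subgroup G := ⨆ B ∈ 𝒜, (B ⊓ W)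

omit [TopologicalSpace G] [IsTopologicalGroup G] [T2Space G] [LocallyCompactSpace G]
  [TotallyDisconnectedSpace G] in
lemma le_J {𝒜 : Set (Subgroup G)} {W B : Subgroup G} (hB : B ∈ 𝒜) : B ⊓ W ≤ J 𝒜 W := by
  unfold J
  exact le_iSup₂ (f := fun (B : Subgroup G) (_ : B ∈ 𝒜) => B ⊓ W) B hB

omit [TopologicalSpace G] [IsTopologicalGroup G] [T2Space G] [LocallyCompactSpace G]
  [TotallyDisconnectedSpace G] in
lemma J_mono {𝒜 : Set (Subgroup G)} {V W : Subgroup G} (h : V ≤ W) : J 𝒜 V ≤ J 𝒜 W := by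
  unfold J
  exact iSup₂_mono (fun B _ => inf_le_inf_left B h)

omit [TopologicalSpace G] [IsTopologicalGroup G] [T2Space G] [LocallyCompactSpace G]
  [TotallyDisconnectedSpace G] in
lemma J_le {𝒜 : Set (Subgroup G)} {V W : Subgroup G} (h : ∀ B ∈ 𝒜, B ⊓ W ≤ V) : J 𝒜 W ≤ V := by
  unfold J
  exact iSup₂_le h

theorem no_abelian (hS : ClassS G) (A : Subgroup G) (hA : ON A)
    (hab : ∀ x ∈ A, ∀ y ∈ A, x * y = y * x) : A = ⊥ := by
  classical
  by_contra hne
  obtain ⟨U, hUo, hUc⟩ := exists_co G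
  have qz := qz_trivial hS
  -- finitely many conjugates of `A` generate together with `U`
  have hgen : Subgroup.closure ((U : Set G) ∪ ⋃ x : G, ((cj x A : Subgroup G) : Set G)) = ⊤ := by
    set T := Subgroup.closure ((U : Set G) ∪ ⋃ x : G, ((cj x A : Subgroup G) : Set G)) with hT
    have hTo : Op T := by
      apply Op.mono hUo
      intro x hx
      exact Subgroup.subset_closure (Or.inl hx)
    set N := Subgroup.normalClosure (A : Set G) with hN
    have hNT : N ≤ T := by
      rw [hN, Subgroup.normalClosure, Subgroup.closure_le]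
      intro y hy
      rw [Group.mem_conjugatesOfSet_iff] at hy
      obtain ⟨a, ha, hay⟩ := hy
      rw [isConj_iff] at hay
      obtain ⟨c, rfl⟩ := hay
      apply Subgroup.subset_closure
      right
      rw [Set.mem_iUnion]
      exact ⟨c, conj_mem_cj ha⟩
    have hn : N.topologicalClosure.Normal := Subgroup.is_normal_topologicalClosure N
    rcases hS.simple _ hn N.isClosed_topologicalClosure with h | h
    · exfalso
      apply hne
      rw [eq_bot_iff, ← h]
      exact (Subgroup.le_normalClosure (H := A)).trans N.le_topologicalClosure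
    · rw [eq_top_iff, ← h]
      exact N.topologicalClosure_minimal hNT (Subgroup.isClosed_of_isOpen T hTo)
  obtain ⟨t, ht⟩ := exists_finset_closure hS hUo
    (fun x : G => ((cj x A : Subgroup G) : Set G)) hgen
  -- the finite `U`-invariant family
  set t' : Finset G := insert 1 t with ht'
  set 𝒜 : Set (Subgroup G) := ⋃ x ∈ t', {B | ∃ u ∈ U, B = cj u (cj x A)} with h𝒜
  have hfin : 𝒜.Finite := by
    apply Set.Finite.biUnion t'.finite_toSet
    intro x _
    exact finite_orbit hUc (ON.cj hA x)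
  have hmem : ∀ B, B ∈ 𝒜 ↔ ∃ x ∈ t', ∃ u ∈ U, B = cj u (cj x A) := by
    intro B
    simp only [h𝒜, Set.mem_iUnion, exists_prop]
    rfl
  have hON : ∀ B ∈ 𝒜, ON B := by
    intro B hB
    obtain ⟨x, _, u, _, rfl⟩ := (hmem B).mp hB
    exact ON.cj (ON.cj hA x) u
  have habB : ∀ B ∈ 𝒜, ∀ x ∈ B, ∀ y ∈ B, x * y = y * x := by
    intro B hB
    obtain ⟨g, _, u, _, rfl⟩ := (hmem B).mp hB
    intro x hx y hy
    rw [← cj_mul, mem_cj] at hx hy
    have := hab _ hx _ hy
    have h1 : x * y = (u * g) * (((u * g)⁻¹ * x * (u * g)) * ((u * g)⁻¹ * y * (u * g))) *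
      (u * g)⁻¹ := by group
    have h2 : y * x = (u * g) * (((u * g)⁻¹ * y * (u * g)) * ((u * g)⁻¹ * x * (u * g))) *
      (u * g)⁻¹ := by group
    rw [h1, h2, this]
  have hAmem : A ∈ 𝒜 := by
    rw [hmem]
    exact ⟨1, by simp [ht'], 1, U.one_mem, by simp⟩
  have hUinv : ∀ u ∈ U, ∀ B ∈ 𝒜, cj u B ∈ 𝒜 := by
    intro u hu B hB
    obtain ⟨x, hx, v, hv, rfl⟩ := (hmem B).mp hB
    rw [hmem]
    exact ⟨x, hx, u * v, U.mul_mem hu hv, by rw [cj_mul]⟩
  have htop : ∀ S : Subgroup G, U ≤ S → (∀ B ∈ 𝒜, B ≤ S) → S = ⊤ := by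
    intro S h1 h2
    rw [eq_top_iff, ← ht, Subgroup.closure_le]
    rintro x (hx | hx)
    · exact h1 hx
    · rw [Set.mem_iUnion₂] at hx
      obtain ⟨i, hi, hxi⟩ := hx
      apply h2 (cj i A) _ hxi
      rw [hmem]
      exact ⟨i, by simp [ht', hi], 1, U.one_mem, by simp⟩
  -- the open subgroup `W0` normalizing all the members of `𝒜`
  set W0 : Subgroup G := U ⊓ sInf (No '' 𝒜) with hW0
  have hW0o : Op W0 := by
    apply Op.inf hUo
    apply op_biInf (hfin.image _)
    rintro _ ⟨B, hB, rfl⟩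
    exact hON B hB
  have hW0U : W0 ≤ U := inf_le_left
  have hW0N : ∀ B ∈ 𝒜, W0 ≤ No B := by
    intro B hB
    exact inf_le_right.trans (sInf_le ⟨B, hB, rfl⟩)
  -- two invariance properties of `J`
  have hJU : ∀ u ∈ U, ∀ W : Subgroup G, J 𝒜 (cj u W) ≤ cj u (J 𝒜 W) := by
    intro u hu W
    apply J_le
    intro B hB
    have h1 : B ⊓ cj u W = cj u (cj u⁻¹ B ⊓ W) := by
      rw [cj_inf, cj_cj_inv]
    rw [h1]
    exact cj_mono u (le_J (hUinv _ (U.inv_mem hu) B hB))
  have hJa : ∀ B₀ ∈ 𝒜, ∀ a ∈ B₀, ∀ W : Subgroup G, W ≤ W0 →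
      J 𝒜 (W ⊓ cj a W) ≤ cj a (J 𝒜 W) := by
    intro B₀ hB₀ a ha W hW
    apply J_le
    intro B hB z hz
    obtain ⟨hzB, hzW⟩ := Subgroup.mem_inf.mp hz
    obtain ⟨hzW1, hzW2⟩ := Subgroup.mem_inf.mp hzW
    rw [mem_cj] at hzW2 ⊢
    have e : a⁻¹ * z * a = (a⁻¹ * (z * a * z⁻¹)) * z := by group
    rw [e]
    apply Subgroup.mul_mem
    · apply le_J hB₀
      refine Subgroup.mem_inf.mpr ⟨?_, ?_⟩
      · apply B₀.mul_mem (B₀.inv_mem ha)
        have := mem_No_iff.mp (hW0N B₀ hB₀ (hW hzW1))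
        rw [← this]
        exact conj_mem_cj ha
      · have e2 : a⁻¹ * (z * a * z⁻¹) = (a⁻¹ * z * a) * z⁻¹ := by group
        rw [e2]
        exact W.mul_mem hzW2 (W.inv_mem hzW1)
    · exact le_J hB (Subgroup.mem_inf.mpr ⟨hzB, hzW1⟩)
  -- the subgroup `D`
  let D : Subgroup G :=
    { carrier := {x | ∃ W : Subgroup G, Op W ∧ W ≤ W0 ∧ x ∈ Ce (J 𝒜 W)}
      one_mem' := ⟨W0, hW0o, le_rfl, Subgroup.one_mem _⟩
      mul_mem' := by
        rintro a b ⟨W1, h1, h1', h1''⟩ ⟨W2, h2, h2', h2''⟩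
        exact ⟨W1 ⊓ W2, Op.inf h1 h2, inf_le_left.trans h1', Subgroup.mul_mem _
          (Ce_anti (J_mono inf_le_left) h1'') (Ce_anti (J_mono inf_le_right) h2'')⟩
      inv_mem' := by
        rintro a ⟨W1, h1, h1', h1''⟩
        exact ⟨W1, h1, h1', Subgroup.inv_mem _ h1''⟩ }
  have hmemD : ∀ x : G, x ∈ D ↔ ∃ W : Subgroup G, Op W ∧ W ≤ W0 ∧ x ∈ Ce (J 𝒜 W) :=
    fun x => Iff.rfl
  -- `D` is normal
  have hDle : ∀ g : G, (∀ W : Subgroup G, Op W → W ≤ W0 →
      ∃ W' : Subgroup G, Op W' ∧ W' ≤ W0 ∧ J 𝒜 W' ≤ cj g (J 𝒜 W)) → cj g D ≤ D := by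
    intro g hg x hx
    rw [mem_cj, hmemD] at hx
    obtain ⟨W, hWo, hW, hx⟩ := hx
    obtain ⟨W', hW'o, hW', hJ⟩ := hg W hWo hW
    rw [hmemD]
    refine ⟨W', hW'o, hW', ?_⟩
    apply Ce_anti hJ
    rw [← cj_Ce, mem_cj]
    exact hx
  have hDU : ∀ u ∈ U, cj u D ≤ D := by
    intro u hu
    apply hDle
    intro W hWo hW
    refine ⟨cj u W ⊓ W0, Op.inf (Op.cj hWo u) hW0o, inf_le_right, ?_⟩
    exact (J_mono inf_le_left).trans (hJU u hu W)
  have hDB : ∀ B ∈ 𝒜, ∀ a ∈ B, cj a D ≤ D := by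
    intro B hB a ha
    apply hDle
    intro W hWo hW
    exact ⟨W ⊓ cj a W, Op.inf hWo (Op.cj hWo a), inf_le_left.trans hW, hJa B hB a ha W hW⟩
  have hDall : ∀ g : G, cj g D = D := by
    have : No D = ⊤ := by
      apply htop
      · intro u hu
        rw [mem_No_iff]
        apply le_antisymm (hDU u hu)
        have := hDU u⁻¹ (U.inv_mem hu)
        rw [cj_le_iff, inv_inv] at this
        exact this
      · intro B hB a ha
        rw [mem_No_iff]
        apply le_antisymm (hDB B hB a ha)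
        have := hDB B hB a⁻¹ (B.inv_mem ha)
        rw [cj_le_iff, inv_inv] at this
        exact this
    intro g
    rw [← mem_No_iff, this]
    exact Subgroup.mem_top g
  -- `D` is nontrivial
  have hDne : D ≠ ⊥ := by
    set F := hfin.toFinset with hF
    have hFmem : ∀ B, B ∈ F ↔ B ∈ 𝒜 := fun B => hfin.mem_toFinset
    obtain ⟨S, hSm, hSmax⟩ := Finset.exists_max_image
      (F.powerset.filter (fun S => S.inf id ≠ (⊥ : Subgroup G) ∧ A ∈ S)) Finset.card ⟨{A}, by
        rw [Finset.mem_filter]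
        refine ⟨?_, ?_, by simp⟩
        · rw [Finset.mem_powerset, Finset.singleton_subset_iff]
          exact (hFmem A).mpr hAmem
        · simpa using hne⟩
    rw [Finset.mem_filter, Finset.mem_powerset] at hSm
    obtain ⟨hSF, hSne, hAS⟩ := hSm
    set Z := S.inf id with hZ
    have hZle : ∀ B ∈ S, Z ≤ B := fun B hB => Finset.inf_le (f := id) hB
    have hW0Z : W0 ≤ No Z := by
      intro w hw
      rw [mem_No_iff]
      have key : ∀ w ∈ W0, cj w Z ≤ Z := by
        intro w hw
        rw [hZ]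
        apply Finset.le_inf
        intro B hB
        have h1 : cj w B = B := mem_No_iff.mp (hW0N B ((hFmem B).mp (hSF hB)) hw)
        have h2 : cj w Z ≤ cj w B := cj_mono w (hZle B hB)
        rw [h1] at h2
        exact h2
      apply le_antisymm (key w hw)
      have := key w⁻¹ (W0.inv_mem hw)
      rw [cj_le_iff, inv_inv] at this
      exact this
    have hZon : ON Z := Op.mono hW0o hW0Z
    have hZW : Z ⊓ W0 ≠ ⊥ := by
      intro h
      exact hSne (eq_bot_of_inf_open_of_qz qz hZon hW0o h)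
    have hsub : Z ⊓ W0 ≤ D := by
      intro z hz
      obtain ⟨hz1, hz2⟩ := Subgroup.mem_inf.mp hz
      rw [hmemD]
      refine ⟨W0, hW0o, le_rfl, ?_⟩
      apply le_Ce_comm (A := J 𝒜 W0) (B := Z ⊓ W0) _ hz
      apply J_le
      intro B hB a ha
      obtain ⟨ha1, ha2⟩ := Subgroup.mem_inf.mp ha
      rw [mem_Ce]
      intro y hy
      obtain ⟨hy1, hy2⟩ := Subgroup.mem_inf.mp hy
      by_cases hBS : B ∈ S
      · exact habB B hB y (hZle B hBS hy1) a ha1
      · have hins : (insert B S).inf id = (⊥ : Subgroup G) := by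
          by_contra hcon
          have := hSmax (insert B S) (by
            rw [Finset.mem_filter, Finset.mem_powerset]
            refine ⟨?_, hcon, Finset.mem_insert_of_mem hAS⟩
            intro C hC
            rcases Finset.mem_insert.mp hC with rfl | hC
            · exact (hFmem C).mpr hB
            · exact hSF hC)
          rw [Finset.card_insert_of_notMem hBS] at this
          omega
        rw [Finset.inf_insert] at hins
        have hins' : B ⊓ Z = ⊥ := hins
        have h1 : y * a * y⁻¹ * a⁻¹ ∈ B := by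
          apply B.mul_mem _ (B.inv_mem ha1)
          have := mem_No_iff.mp (hW0N B hB hy2)
          rw [← this]
          exact conj_mem_cj ha1
        have h2 : y * a * y⁻¹ * a⁻¹ ∈ Z := by
          have e : y * a * y⁻¹ * a⁻¹ = y * (a * y⁻¹ * a⁻¹) := by group
          rw [e]
          apply Z.mul_mem hy1
          have := mem_No_iff.mp (hW0Z ha2)
          rw [← this]
          exact conj_mem_cj (Z.inv_mem hy1)
        have h3 : y * a * y⁻¹ * a⁻¹ ∈ B ⊓ Z := Subgroup.mem_inf.mpr ⟨h1, h2⟩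
        rw [hins', Subgroup.mem_bot] at h3
        have := congrArg (fun x => x * a * y) h3
        simpa using this
    intro hD
    rw [hD] at hsub
    exact hZW (le_bot_iff.mp hsub)
  -- finitely many elements of `D` generate with `U`
  obtain ⟨F, hF⟩ := exists_finset_generate hS hUo hDall hDne
  have hch : ∀ d : D, ∃ W : Subgroup G, Op W ∧ W ≤ W0 ∧ (d : G) ∈ Ce (J 𝒜 W) :=
    fun d => (hmemD d).mp d.2
  choose w hw1 hw2 hw3 using hch
  set W1 : Subgroup G := W0 ⊓ sInf (w '' (F : Set D)) with hW1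
  have hW1o : Op W1 := by
    apply Op.inf hW0o
    apply op_biInf (F.finite_toSet.image _)
    rintro _ ⟨d, _, rfl⟩
    exact hw1 d
  obtain ⟨W2, hW2o, hW21, _, hW2i⟩ := exists_invariant hUc hUo hW1o
  have hJall : ∀ g : G, cj g (J 𝒜 W2) = J 𝒜 W2 := by
    have : No (J 𝒜 W2) = ⊤ := by
      rw [eq_top_iff, ← hF, Subgroup.closure_le]
      rintro x (hx | hx)
      · rw [SetLike.mem_coe, mem_No_iff]
        have h1 : ∀ u ∈ U, J 𝒜 W2 ≤ cj u (J 𝒜 W2) := by
          intro u hu
          have := hJU u hu W2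
          rwa [hW2i u hu] at this
        apply le_antisymm _ (h1 x hx)
        rw [cj_le_iff]
        exact h1 x⁻¹ (U.inv_mem hx)
      · rw [Set.mem_iUnion₂] at hx
        obtain ⟨i, hi, hxi⟩ := hx
        rw [Set.mem_singleton_iff] at hxi
        subst hxi
        have h1 : (i : G) ∈ Ce (J 𝒜 W2) := by
          apply Ce_anti (J_mono _) (hw3 i)
          exact hW21.trans (inf_le_right.trans (sInf_le ⟨i, hi, rfl⟩))
        rw [SetLike.mem_coe, mem_No_iff]
        ext y
        rw [mem_cj]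
        rw [mem_Ce] at h1
        constructor
        · intro hy
          have := h1 _ hy
          have e : y = (i : G)⁻¹ * y * i := by
            have h2 : (i : G) * ((i : G)⁻¹ * y * i) * (i : G)⁻¹ = y := by group
            rw [← this] at h2
            have h3 : (i : G)⁻¹ * y * i * i * (i : G)⁻¹ = (i : G)⁻¹ * y * i := by group
            rw [h3] at h2
            exact h2.symm
          rw [e]
          exact hy
        · intro hy
          have := h1 _ hy
          have e : (i : G)⁻¹ * y * i = y := by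
            rw [mul_assoc, this]; group
          rwa [e]
    intro g
    rw [← mem_No_iff, this]
    exact Subgroup.mem_top g
  have hJU2 : J 𝒜 W2 ≤ U := by
    apply J_le
    intro B _
    exact inf_le_right.trans (hW21.trans (inf_le_left.trans hW0U))
  have hJbot := eq_bot_of_normal_le hS hUc hJall hJU2
  apply hne
  apply eq_bot_of_inf_open_of_qz qz hA hW2o
  rw [eq_bot_iff, ← hJbot]
  exact le_J hAmem

/-- Groups in the class `𝒮` satisfy the standing hypotheses. -/
theorem ClassS.hyp (hS : ClassS G) : Hyp G := ⟨qz_trivial hS, fun A h1 h2 => no_abelian hS A h1 h2⟩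

end Pool.Agent.Lib.H69.Tdlc
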