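import Mathlib

/-!
Algebraic preliminaries: conjugates, centralizers and normalizers of subgroups, and the
elementary theory of subgroups with open normalizer in a topological group which has trivial
quasi-centre and no nontrivial abelian subgroup with open normalizer.
-/

namespace Pool.Agent.Lib.H69.Tdlc

open Pointwise

universe u

variable {G : Type u} [Group G]

/-- The conjugate subgroup `g A g⁻¹`. -/
def cj (g : G) (A : Subgroup G) : Subgroup G := A.comap (MulAut.conj g⁻¹).toMonoidHom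

lemma mem_cj {g x : G} {A : Subgroup G} : x ∈ cj g A ↔ g⁻¹ * x * g ∈ A := by
  simp [cj, Subgroup.mem_comap]

/-- Shorthand for the centralizer of a subgroup. -/
abbrev Ce (A : Subgroup G) : Subgroup G := Subgroup.centralizer (A : Set G)

/-- Shorthand for the normalizer of a subgroup. -/
abbrev No (A : Subgroup G) : Subgroup G := Subgroup.normalizer (A : Set G)

lemma mem_Ce {A : Subgroup G} {x : G} : x ∈ Ce A ↔ ∀ a ∈ A, a * x = x * a := by
  simp [Ce, Subgroup.mem_centralizer_iff]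

@[simp] lemma cj_one (A : Subgroup G) : cj 1 A = A := by
  ext x; simp [mem_cj]

lemma cj_mul (g h : G) (A : Subgroup G) : cj (g * h) A = cj g (cj h A) := by
  ext x; simp [mem_cj, mul_assoc]

@[simp] lemma cj_inv_cj (g : G) (A : Subgroup G) : cj g⁻¹ (cj g A) = A := by
  rw [← cj_mul]; simp

@[simp] lemma cj_cj_inv (g : G) (A : Subgroup G) : cj g (cj g⁻¹ A) = A := by
  rw [← cj_mul]; simp

lemma cj_mono (g : G) {A B : Subgroup G} (h : A ≤ B) : cj g A ≤ cj g B := by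
  intro x hx
  rw [mem_cj] at hx ⊢
  exact h hx

lemma cj_le_iff {g : G} {A B : Subgroup G} : cj g A ≤ B ↔ A ≤ cj g⁻¹ B := by
  constructor
  · intro h
    have := cj_mono g⁻¹ h
    simpa using this
  · intro h
    have := cj_mono g h
    simpa using this

lemma cj_inf (g : G) (A B : Subgroup G) : cj g (A ⊓ B) = cj g A ⊓ cj g B := by
  ext x; simp [mem_cj, Subgroup.mem_inf]

@[simp] lemma cj_bot (g : G) : cj g (⊥ : Subgroup G) = ⊥ := by
  ext x
  rw [mem_cj, Subgroup.mem_bot, Subgroup.mem_bot]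
  constructor
  · intro h
    have : x = g * (g⁻¹ * x * g) * g⁻¹ := by group
    rw [this, h]; group
  · rintro rfl; group

lemma cj_injective (g : G) {A B : Subgroup G} (h : cj g A = cj g B) : A = B := by
  have := congrArg (cj g⁻¹) h
  simpa using this

lemma cj_ne_bot {g : G} {A : Subgroup G} (h : A ≠ ⊥) : cj g A ≠ ⊥ := by
  intro h'
  apply h
  apply cj_injective g
  rw [h', cj_bot]

lemma conj_mem_cj {g x : G} {A : Subgroup G} (h : x ∈ A) : g * x * g⁻¹ ∈ cj g A := by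
  rw [mem_cj]
  have : g⁻¹ * (g * x * g⁻¹) * g = x := by group
  rwa [this]

lemma cj_of_mem {g : G} {A : Subgroup G} (h : g ∈ A) : cj g A = A := by
  ext x
  rw [mem_cj]
  constructor
  · intro hx
    have : x = g * (g⁻¹ * x * g) * g⁻¹ := by group
    rw [this]
    exact A.mul_mem (A.mul_mem h hx) (A.inv_mem h)
  · intro hx
    exact A.mul_mem (A.mul_mem (A.inv_mem h) hx) h

lemma mem_No_iff {g : G} {A : Subgroup G} : g ∈ No A ↔ cj g A = A := by
  rw [← Subgroup.inv_mem_iff, Subgroup.mem_normalizer_iff]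
  constructor
  · intro h
    ext x
    rw [mem_cj, h x]
    simp
  · intro h x
    have : x ∈ A ↔ x ∈ cj g A := by rw [h]
    rw [this, mem_cj]
    simp

lemma cj_Ce (g : G) (A : Subgroup G) : cj g (Ce A) = Ce (cj g A) := by
  ext x
  rw [mem_cj, mem_Ce, mem_Ce]
  constructor
  · intro h a ha
    rw [mem_cj] at ha
    have := h _ ha
    have e : g * (g⁻¹ * a * g * (g⁻¹ * x * g)) * g⁻¹ = g * (g⁻¹ * x * g * (g⁻¹ * a * g)) * g⁻¹ := by
      rw [this]
    have e1 : g * (g⁻¹ * a * g * (g⁻¹ * x * g)) * g⁻¹ = a * x := by group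
    have e2 : g * (g⁻¹ * x * g * (g⁻¹ * a * g)) * g⁻¹ = x * a := by group
    rw [e1, e2] at e
    exact e
  · intro h a ha
    have := h _ (conj_mem_cj (g := g) ha)
    have e : g⁻¹ * (g * a * g⁻¹ * x) * g = g⁻¹ * (x * (g * a * g⁻¹)) * g := by rw [this]
    have e1 : g⁻¹ * (g * a * g⁻¹ * x) * g = a * (g⁻¹ * x * g) := by group
    have e2 : g⁻¹ * (x * (g * a * g⁻¹)) * g = g⁻¹ * x * g * a := by group
    rw [e1, e2] at e
    exact e

lemma cj_No (g : G) (A : Subgroup G) : cj g (No A) = No (cj g A) := by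
  ext x
  rw [mem_cj, mem_No_iff, mem_No_iff]
  constructor
  · intro h
    have := congrArg (cj g) h
    rw [← cj_mul] at this
    rw [← cj_mul]
    convert this using 2
    group
  · intro h
    apply cj_injective g
    rw [← cj_mul]
    rw [← cj_mul] at h
    convert h using 2
    group

lemma Ce_anti {A B : Subgroup G} (h : A ≤ B) : Ce B ≤ Ce A :=
  Subgroup.centralizer_le h

lemma le_Ce_Ce (A : Subgroup G) : A ≤ Ce (Ce A) := by
  intro x hx
  rw [mem_Ce]
  intro a ha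
  rw [mem_Ce] at ha
  exact (ha x hx).symm

lemma Ce_Ce_Ce (A : Subgroup G) : Ce (Ce (Ce A)) = Ce A :=
  le_antisymm (Ce_anti (le_Ce_Ce A)) (le_Ce_Ce (Ce A))

lemma le_Ce_comm {A B : Subgroup G} (h : A ≤ Ce B) : B ≤ Ce A := by
  intro x hx
  rw [mem_Ce]
  intro a ha
  have := h ha
  rw [mem_Ce] at this
  exact (this x hx).symm

lemma No_Ce (A : Subgroup G) : No A ≤ No (Ce A) := by
  intro x hx
  rw [mem_No_iff] at hx ⊢
  rw [cj_Ce, hx]

lemma No_inf (A B : Subgroup G) : No A ⊓ No B ≤ No (A ⊓ B) := by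
  intro x hx
  rw [Subgroup.mem_inf, mem_No_iff, mem_No_iff] at hx
  rw [mem_No_iff, cj_inf, hx.1, hx.2]

lemma le_No (A : Subgroup G) : A ≤ No A := by
  intro x hx
  rw [mem_No_iff]
  exact cj_of_mem hx

/-! ### topology -/

variable [TopologicalSpace G] [IsTopologicalGroup G]

/-- `A` is an open subgroup. -/
abbrev Op (A : Subgroup G) : Prop := IsOpen (A : Set G)

/-- `A` has an open normalizer. -/
abbrev ON (A : Subgroup G) : Prop := IsOpen (No A : Set G)

lemma Op.inf {A B : Subgroup G} (hA : Op A) (hB : Op B) : Op (A ⊓ B) := by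
  unfold Op
  rw [Subgroup.coe_inf]
  exact IsOpen.inter hA hB

lemma Op.mono {A B : Subgroup G} (hA : Op A) (h : A ≤ B) : Op B :=
  Subgroup.isOpen_mono h hA

lemma Op.cj {A : Subgroup G} (hA : Op A) (g : G) : Op (cj g A) := by
  have : ((Tdlc.cj g A : Subgroup G) : Set G) = (fun x => g⁻¹ * x * g) ⁻¹' (A : Set G) := by
    ext x
    simp [mem_cj]
  unfold Op
  rw [this]
  exact hA.preimage (by fun_prop)

lemma ON.inf {A B : Subgroup G} (hA : ON A) (hB : ON B) : ON (A ⊓ B) :=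
  Op.mono (Op.inf hA hB) (No_inf A B)

lemma ON.ce {A : Subgroup G} (hA : ON A) : ON (Ce A) :=
  Op.mono (A := No A) hA (No_Ce A)

lemma Op.on {A : Subgroup G} (hA : Op A) : ON A := Op.mono hA (le_No A)

lemma ON.cj {A : Subgroup G} (hA : ON A) (g : G) : ON (cj g A) := by
  have := Op.cj (A := No A) hA g
  rw [cj_No] at this
  exact this

/-- The two standing hypotheses: trivial quasi-centre, and no nontrivial abelian subgroup with
open normalizer. -/
structure Hyp (G : Type u) [Group G] [TopologicalSpace G] : Prop where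
  qz : ∀ x : G, IsOpen ((Subgroup.centralizer {x} : Subgroup G) : Set G) → x = 1
  ab : ∀ A : Subgroup G, IsOpen ((Subgroup.normalizer (A : Set G) : Subgroup G) : Set G) →
    (∀ x ∈ A, ∀ y ∈ A, x * y = y * x) → A = ⊥

variable {A B K L W : Subgroup G}

/-- A subgroup with open normalizer meeting an open subgroup trivially is trivial. -/
lemma eq_bot_of_inf_open_of_qz
    (qz : ∀ x : G, IsOpen ((Subgroup.centralizer {x} : Subgroup G) : Set G) → x = 1)
    (hA : ON A) (hW : Op W) (h : A ⊓ W = ⊥) : A = ⊥ := by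
  rw [eq_bot_iff]
  intro k hk
  rw [Subgroup.mem_bot]
  apply qz
  apply Subgroup.isOpen_of_mem_nhds (g := 1)
  have h1 : (No A : Set G) ∈ nhds (1 : G) := hA.mem_nhds (No A).one_mem
  have h2 : (fun n : G => n * k * n⁻¹ * k⁻¹) ⁻¹' (W : Set G) ∈ nhds (1 : G) := by
    apply (hW.preimage (by fun_prop)).mem_nhds
    simp
  filter_upwards [h1, h2] with n hn1 hn2
  have e1 : n * k * n⁻¹ * k⁻¹ ∈ A := by
    apply A.mul_mem _ (A.inv_mem hk)
    have := (mem_No_iff.mp hn1)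
    rw [← this]
    exact conj_mem_cj hk
  have e2 : n * k * n⁻¹ * k⁻¹ ∈ A ⊓ W := ⟨e1, hn2⟩
  rw [h, Subgroup.mem_bot] at e2
  rw [SetLike.mem_coe, Subgroup.mem_centralizer_iff]
  intro x hx
  rw [Set.mem_singleton_iff] at hx
  subst hx
  have e3 : n * x * n⁻¹ = x := by
    have := congrArg (fun z => z * x) e2
    simpa using this
  have := congrArg (fun z => z * n) e3
  simp only [inv_mul_cancel_right] at this
  exact this.symm

lemma Hyp.eq_bot_of_inf_open (H : Hyp G) (hA : ON A) (hW : Op W) (h : A ⊓ W = ⊥) : A = ⊥ :=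
  eq_bot_of_inf_open_of_qz H.qz hA hW h

/-- `B ∩ C(B) = 1` when `B` has open normalizer. -/
lemma Hyp.inf_Ce (H : Hyp G) (hB : ON B) : B ⊓ Ce B = ⊥ := by
  apply H.ab _ (ON.inf hB (ON.ce hB))
  intro x hx y hy
  have := (Subgroup.mem_inf.mp hy).2
  rw [mem_Ce] at this
  exact this x (Subgroup.mem_inf.mp hx).1

/-- `M ∩ C(M ∩ W) = 1`. -/
lemma Hyp.inf_Ce_inf (H : Hyp G) {M : Subgroup G} (hM : ON M) (hW : Op W) :
    M ⊓ Ce (M ⊓ W) = ⊥ := by
  have hE : ON (M ⊓ Ce (M ⊓ W)) := ON.inf hM (ON.ce (ON.inf hM (Op.on hW)))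
  apply H.eq_bot_of_inf_open hE hW
  apply H.ab _ (ON.inf hE (Op.on hW))
  intro x hx y hy
  have h1 : x ∈ M ⊓ W := ⟨hx.1.1, hx.2⟩
  have h2 : y ∈ Ce (M ⊓ W) := hy.1.2
  rw [mem_Ce] at h2
  exact h2 x h1

/-- `C(K ∩ W) = C(K)`. -/
lemma Hyp.comm_of_Ce_inf (H : Hyp G) (hK : ON K) (hW : Op W) {k l : G} (hk : k ∈ K)
    (hl : l ∈ Ce (K ⊓ W)) : k * l = l * k := by
  set W1 := W ⊓ cj k W with hW1d
  have hW1 : Op W1 := Op.inf hW (Op.cj hW k)
  set L' := Ce (K ⊓ W1) with hL'd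
  have hL' : ON L' := ON.ce (ON.inf hK (Op.on hW1))
  have hl' : l ∈ L' := Ce_anti (inf_le_inf_left K inf_le_left) hl
  have hkl : k * l * k⁻¹ ∈ L' := by
    have h1 : k * l * k⁻¹ ∈ cj k (Ce (K ⊓ W)) := conj_mem_cj hl
    rw [cj_Ce, cj_inf, cj_of_mem hk] at h1
    exact Ce_anti (inf_le_inf_left K inf_le_right) h1
  have hy : k * l * k⁻¹ * l⁻¹ ∈ L' := L'.mul_mem hkl (L'.inv_mem hl')
  set W2 := W1 ⊓ cj k W1 with hW2d
  have hW2 : Op W2 := Op.inf hW1 (Op.cj hW1 k)
  have hz : ∀ z ∈ L', z ∈ No K → k * z = z * k := by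
    intro z hz hzN
    have h1 : k * z * k⁻¹ * z⁻¹ ∈ K := by
      have : z * k⁻¹ * z⁻¹ ∈ K := by
        have := mem_No_iff.mp hzN
        rw [← this]
        exact conj_mem_cj (K.inv_mem hk)
      have e : k * z * k⁻¹ * z⁻¹ = k * (z * k⁻¹ * z⁻¹) := by group
      rw [e]
      exact K.mul_mem hk this
    have h2 : k * z * k⁻¹ * z⁻¹ ∈ Ce (K ⊓ W2) := by
      apply Subgroup.mul_mem
      · have h1 : k * z * k⁻¹ ∈ cj k (Ce (K ⊓ W1)) := conj_mem_cj hz
        rw [cj_Ce, cj_inf, cj_of_mem hk] at h1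
        exact Ce_anti (inf_le_inf_left K inf_le_right) h1
      · exact Subgroup.inv_mem _ (Ce_anti (inf_le_inf_left K inf_le_left) hz)
    have h3 : k * z * k⁻¹ * z⁻¹ ∈ K ⊓ Ce (K ⊓ W2) := ⟨h1, h2⟩
    rw [H.inf_Ce_inf hK hW2, Subgroup.mem_bot] at h3
    have := congrArg (fun x => x * z * k) h3
    simpa using this
  have hy2 : k * l * k⁻¹ * l⁻¹ ∈ Ce (L' ⊓ (No K ⊓ cj l (No K))) := by
    rw [mem_Ce]
    intro z hz'
    obtain ⟨hz'1, hz'2⟩ := Subgroup.mem_inf.mp hz'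
    obtain ⟨hz'3, hz'4⟩ := Subgroup.mem_inf.mp hz'2
    have h1 : k * z = z * k := hz z hz'1 hz'3
    have h2 : k * (l⁻¹ * z * l) = (l⁻¹ * z * l) * k := by
      apply hz
      · exact L'.mul_mem (L'.mul_mem (L'.inv_mem hl') hz'1) hl'
      · rw [mem_cj] at hz'4
        exact hz'4
    have h2' : k⁻¹ * (l⁻¹ * z * l) = (l⁻¹ * z * l) * k⁻¹ := by
      have := congrArg (fun x => k⁻¹ * x * k⁻¹) h2
      simp only [mul_assoc, inv_mul_cancel_left, mul_inv_cancel, mul_one] at this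
      simp only [mul_assoc]
      exact this.symm
    calc z * (k * l * k⁻¹ * l⁻¹) = (z * k) * l * k⁻¹ * l⁻¹ := by group
      _ = (k * z) * l * k⁻¹ * l⁻¹ := by rw [h1]
      _ = k * l * ((l⁻¹ * z * l) * k⁻¹) * l⁻¹ := by group
      _ = k * l * (k⁻¹ * (l⁻¹ * z * l)) * l⁻¹ := by rw [h2']
      _ = k * l * k⁻¹ * l⁻¹ * z := by group
  have hW3 : Op (No K ⊓ cj l (No K)) := Op.inf hK (Op.cj hK l)
  have hfin : k * l * k⁻¹ * l⁻¹ ∈ L' ⊓ Ce (L' ⊓ (No K ⊓ cj l (No K))) := ⟨hy, hy2⟩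
  rw [H.inf_Ce_inf hL' hW3, Subgroup.mem_bot] at hfin
  have := congrArg (fun x => x * l * k) hfin
  simpa using this

/-- Two subgroups with open normalizers and trivial intersection commute. -/
lemma Hyp.le_Ce_of_inf_bot (H : Hyp G) (hK : ON K) (hL : ON L) (h : K ⊓ L = ⊥) : K ≤ Ce L := by
  have h0 : ∀ k ∈ K, k ∈ No L → ∀ l ∈ L, l ∈ No K → k * l = l * k := by
    intro k hk hkN l hl hlN
    have h1 : k * l * k⁻¹ * l⁻¹ ∈ K := by
      have : l * k⁻¹ * l⁻¹ ∈ K := by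
        have := mem_No_iff.mp hlN
        rw [← this]
        exact conj_mem_cj (K.inv_mem hk)
      have e : k * l * k⁻¹ * l⁻¹ = k * (l * k⁻¹ * l⁻¹) := by group
      rw [e]
      exact K.mul_mem hk this
    have h2 : k * l * k⁻¹ * l⁻¹ ∈ L := by
      have : k * l * k⁻¹ ∈ L := by
        have := mem_No_iff.mp hkN
        rw [← this]
        exact conj_mem_cj hl
      exact L.mul_mem this (L.inv_mem hl)
    have h3 : k * l * k⁻¹ * l⁻¹ ∈ K ⊓ L := ⟨h1, h2⟩
    rw [h, Subgroup.mem_bot] at h3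
    have := congrArg (fun x => x * l * k) h3
    simpa using this
  have h1 : ∀ l ∈ L, l ∈ No K → ∀ k ∈ K, k * l = l * k := by
    intro l hl hlN k hk
    apply H.comm_of_Ce_inf hK (W := No L) hL hk
    rw [mem_Ce]
    intro a ha
    exact h0 a ha.1 ha.2 l hl hlN
  intro k hk
  rw [mem_Ce]
  intro l hl
  apply H.comm_of_Ce_inf hL (W := No K) hK hl
  rw [mem_Ce]
  intro a ha
  exact (h1 a ha.1 ha.2 k hk).symm

/-- Regular subgroups: open normalizer and equal to their double centralizer. -/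
structure Reg (B : Subgroup G) : Prop where
  on : ON B
  cc : Ce (Ce B) = B

lemma ON.regCe {B : Subgroup G} (hB : ON B) : Reg (Ce B) := ⟨ON.ce hB, Ce_Ce_Ce B⟩

lemma Reg.ce (hB : Reg B) : Reg (Ce B) := ON.regCe hB.on

lemma Reg.inf (hA : Reg A) (hB : Reg B) : Reg (A ⊓ B) := by
  refine ⟨ON.inf hA.on hB.on, le_antisymm ?_ (le_Ce_Ce _)⟩
  apply le_inf
  · exact (Ce_anti (Ce_anti inf_le_left)).trans hA.cc.le
  · exact (Ce_anti (Ce_anti inf_le_right)).trans hB.cc.le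

lemma Reg.cj (hA : Reg A) (g : G) : Reg (cj g A) := by
  refine ⟨ON.cj hA.on g, ?_⟩
  rw [← cj_Ce, ← cj_Ce, hA.cc]

lemma Hyp.le_of_inf_Ce (H : Hyp G) (hA : ON A) (hB : Reg B) (h : A ⊓ Ce B = ⊥) : A ≤ B := by
  have := H.le_Ce_of_inf_bot hA (ON.ce hB.on) h
  rwa [hB.cc] at this

/-- If a regular subgroup `B` is moved by `p`, there is a nontrivial regular `D`, of a prescribed
shape, contained in every regular `R` containing `p`. -/
lemma Hyp.moved (H : Hyp G) (hB : Reg B) {p : G} (h : cj p B ≠ B) :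
    ∃ D : Subgroup G, (D = B ⊓ Ce (cj p B) ∨ D = cj p B ⊓ Ce B) ∧ D ≠ ⊥ ∧
      ∀ R : Subgroup G, Reg R → p ∈ R → D ≤ R := by
  have hpB : Reg (cj p B) := hB.cj p
  by_cases h1 : B ⊓ Ce (cj p B) = ⊥
  · have h2 : cj p B ⊓ Ce B ≠ ⊥ := by
      intro h2
      exact h (le_antisymm (H.le_of_inf_Ce hpB.on hB h2) (H.le_of_inf_Ce hB.on hpB h1))
    refine ⟨_, Or.inr rfl, h2, ?_⟩
    intro R hR hp
    apply H.le_of_inf_Ce (Reg.inf hpB hB.ce).on hR
    rw [eq_bot_iff, ← H.inf_Ce hB.on]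
    intro x hx
    obtain ⟨hx12, hx3⟩ := Subgroup.mem_inf.mp hx
    obtain ⟨hx1, hx2⟩ := Subgroup.mem_inf.mp hx12
    refine Subgroup.mem_inf.mpr ⟨?_, hx2⟩
    rw [mem_cj] at hx1
    rw [mem_Ce] at hx3
    have := hx3 p hp
    have e : p⁻¹ * x * p = x := by
      rw [mul_assoc, ← this]; group
    rwa [e] at hx1
  · refine ⟨_, Or.inl rfl, h1, ?_⟩
    intro R hR hp
    apply H.le_of_inf_Ce (Reg.inf hB hpB.ce).on hR
    rw [eq_bot_iff, ← H.inf_Ce hpB.on]
    intro x hx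
    obtain ⟨hx12, hx3⟩ := Subgroup.mem_inf.mp hx
    obtain ⟨hx1, hx2⟩ := Subgroup.mem_inf.mp hx12
    refine Subgroup.mem_inf.mpr ⟨?_, hx2⟩
    rw [mem_cj]
    rw [mem_Ce] at hx3
    have := hx3 p hp
    have e : p⁻¹ * x * p = x := by
      rw [mul_assoc, ← this]; group
    rwa [e]

end Pool.Agent.Lib.H69.Tdlc
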