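import Pool.Agent.Lib.H69.Tdlc.Minor

/-!
The main dynamical argument: a group of the class `𝒮` with a proper nontrivial regular subgroup
contains an element normalizing no compact open subgroup.
-/

namespace Pool.Agent.Lib.H69.Tdlc

open Pointwise Topology

universe u

variable {G : Type u} [Group G]

/-- evaluation of words in two letters -/
def ev (g h : G) : List Bool → G
  | [] => 1
  | (s :: v) => (if s then g else h) * ev g h v

@[simp] lemma ev_nil (g h : G) : ev g h [] = 1 := rfl

lemma ev_cons (g h : G) (s : Bool) (v : List Bool) :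
    ev g h (s :: v) = (if s then g else h) * ev g h v := rfl

lemma ev_append (g h : G) (u v : List Bool) : ev g h (u ++ v) = ev g h u * ev g h v := by
  induction u with
  | nil => simp
  | cons s u ih => rw [List.cons_append, ev_cons, ev_cons, ih, mul_assoc]

lemma ev_replicate (g h : G) (n : ℕ) : ev g h (List.replicate n true) = g ^ n := by
  induction n with
  | zero => simp
  | succ n ih => rw [List.replicate_succ, ev_cons, ih, pow_succ']; simp

section combinatorics

variable {g h : G} {A : Subgroup G}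

lemma cj_ev_le (hg : cj g A ≤ A) (hh : cj h A ≤ A) (v : List Bool) : cj (ev g h v) A ≤ A := by
  induction v with
  | nil => simp
  | cons s v ih =>
    rw [ev_cons, cj_mul]
    refine (cj_mono _ ih).trans ?_
    cases s
    · simpa using hh
    · simpa using hg

lemma comparable (hg : cj g A ≤ A) (hh : cj h A ≤ A) (hgh : cj g A ⊓ cj h A = ⊥) :
    ∀ v w : List Bool, cj (ev g h v) A ⊓ cj (ev g h w) A ≠ ⊥ → v <+: w ∨ w <+: v := by
  intro v
  induction v with
  | nil => intro w _; left; exact List.nil_prefix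
  | cons s v ih =>
    intro w hw
    cases w with
    | nil => right; exact List.nil_prefix
    | cons r w =>
      by_cases hsr : s = r
      · subst hsr
        rw [ev_cons, ev_cons, cj_mul, cj_mul, ← cj_inf] at hw
        have : cj (ev g h v) A ⊓ cj (ev g h w) A ≠ ⊥ := by
          intro h
          rw [h, cj_bot] at hw
          exact hw rfl
        rcases ih w this with h | h
        · left; exact (List.prefix_cons_inj s).mpr h
        · right; exact (List.prefix_cons_inj s).mpr h
      · exfalso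
        apply hw
        have h1 : cj (ev g h (s :: v)) A ≤ cj (if s then g else h) A := by
          rw [ev_cons, cj_mul]
          exact cj_mono _ (cj_ev_le hg hh v)
        have h2 : cj (ev g h (r :: w)) A ≤ cj (if r then g else h) A := by
          rw [ev_cons, cj_mul]
          exact cj_mono _ (cj_ev_le hg hh w)
        rw [eq_bot_iff]
        refine (inf_le_inf h1 h2).trans ?_
        cases s <;> cases r
        · exact absurd rfl hsr
        · simp only [Bool.false_eq_true, if_false, if_true]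
          rw [inf_comm, hgh]
        · simp only [Bool.false_eq_true, if_false, if_true]
          rw [hgh]
        · exact absurd rfl hsr

end combinatorics

variable [TopologicalSpace G] [IsTopologicalGroup G]

/-- The data used in the main argument. -/
structure Data (g h q : G) (A R Q : Subgroup G) : Prop where
  A1 : A ≠ ⊥
  regR : Reg R
  RA : R ≤ A
  gA : cj g A ≤ A
  hR : cj h A ≤ R
  Rg : R ⊓ cj g A = ⊥
  QR : Q ≤ R
  qQ : q ∈ Q
  qh : cj h A ⊓ cj q (cj h A) = ⊥

variable {g h q : G} {A R Q : Subgroup G}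

omit [IsTopologicalGroup G] in
lemma Data.hA (d : Data g h q A R Q) : cj h A ≤ A := d.hR.trans d.RA

omit [IsTopologicalGroup G] in
lemma Data.gh (d : Data g h q A R Q) : cj g A ⊓ cj h A = ⊥ := by
  rw [eq_bot_iff, ← d.Rg, inf_comm]
  exact inf_le_inf_right _ d.hR

omit [IsTopologicalGroup G] in
/-- the key distinctness statement -/
lemma Data.distinct (d : Data g h q A R Q) {D : Subgroup G} (hD : D ≠ ⊥) {v u : List Bool}
    {s : Bool} (h1 : D ≤ cj (ev g h v) R) (h2 : D ≤ cj (ev g h (v ++ s :: u)) R) :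
    cj (ev g h v * q * (ev g h v)⁻¹) D ≠
      cj (ev g h (v ++ s :: u) * q * (ev g h (v ++ s :: u))⁻¹) D := by
  set a := ev g h v with ha
  set b := ev g h (v ++ s :: u) with hb
  have hbA : cj b A ≤ cj a (cj (if s then g else h) A) := by
    rw [hb, ev_append, ev_cons, cj_mul, cj_mul, ← ha]
    exact cj_mono _ (cj_mono _ (cj_ev_le d.gA d.hA u))
  have h2A : D ≤ cj b A := h2.trans (cj_mono _ d.RA)
  have hs : s = false := by
    cases s
    · rfl
    · exfalso
      apply hD
      rw [eq_bot_iff]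
      have h3 : D ≤ cj a R ⊓ cj a (cj g A) := by
        apply le_inf h1
        have := h2A.trans hbA
        simpa using this
      rw [← cj_inf, d.Rg, cj_bot] at h3
      exact h3
  subst hs
  simp only [Bool.false_eq_true, if_false] at hbA
  set X := cj a (cj h A) with hX
  have hDX : D ≤ X := h2A.trans hbA
  intro heq
  have e1 : cj (a * q * a⁻¹) D ≤ cj a (cj q (cj h A)) := by
    refine (cj_mono _ hDX).trans ?_
    apply le_of_eq
    simp only [hX, ← cj_mul]
    congr 1
    group
  have e2 : cj (b * q * b⁻¹) D ≤ X := by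
    refine (cj_mono _ h2A).trans ?_
    have : cj (b * q * b⁻¹) (cj b A) = cj b A := by
      apply cj_of_mem
      exact conj_mem_cj (d.RA (d.QR d.qQ))
    rw [this]
    exact hbA
  apply cj_ne_bot (g := a * q * a⁻¹) hD
  rw [eq_bot_iff]
  have e3 : cj (a * q * a⁻¹) D ≤ X ⊓ cj a (cj q (cj h A)) := by
    apply le_inf _ e1
    rw [heq]
    exact e2
  rw [hX, ← cj_inf, d.qh, cj_bot] at e3
  exact e3

omit [IsTopologicalGroup G] in
lemma Data.injOn (d : Data g h q A R Q) {D : Subgroup G} (hD : D ≠ ⊥) :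
    Set.InjOn (fun v : List Bool => cj (ev g h v * q * (ev g h v)⁻¹) D)
      {v | D ≤ cj (ev g h v) R} := by
  intro v hv w hw hvw
  by_contra hne
  have hv' : D ≤ cj (ev g h v) R := hv
  have hw' : D ≤ cj (ev g h w) R := hw
  have hcomp : v <+: w ∨ w <+: v := by
    apply comparable d.gA d.hA d.gh
    intro hbot
    apply hD
    rw [eq_bot_iff, ← hbot]
    exact le_inf (hv'.trans (cj_mono _ d.RA)) (hw'.trans (cj_mono _ d.RA))
  rcases hcomp with ⟨u, rfl⟩ | ⟨u, rfl⟩
  · cases u with
    | nil => apply hne; simp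
    | cons s u => exact d.distinct hD hv' hw' hvw
  · cases u with
    | nil => apply hne; simp
    | cons s u => exact d.distinct hD hw' hv' hvw.symm

lemma Data.finite_bad (d : Data g h q A R Q) (H : Hyp G) (HF : Faithful G) {U W : Subgroup G}
    (hU : IsCompact (U : Set G)) (hW : Op W) :
    {v : List Bool | cj (ev g h v) Q ≤ U ∧ ¬ cj (ev g h v) Q ≤ W}.Finite := by
  obtain ⟨𝒟, hfin, hreg, hinv, hkey⟩ := exists_family H HF hU hW
  have hT : ∀ D ∈ 𝒟, {v : List Bool | cj (ev g h v) Q ≤ U ∧ D ≤ cj (ev g h v) R}.Finite := by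
    intro D hD
    apply Set.Finite.of_finite_image (f := fun v : List Bool =>
      cj (ev g h v * q * (ev g h v)⁻¹) D)
    · apply hfin.subset
      rintro _ ⟨v, ⟨hv1, _⟩, rfl⟩
      exact hinv _ (hv1 (conj_mem_cj d.qQ)) D hD
    · exact (d.injOn (hreg D hD).2).mono (fun v hv => hv.2)
  apply (Set.Finite.biUnion hfin hT).subset
  rintro v ⟨hv1, hv2⟩
  obtain ⟨p, hp1, hp2⟩ := Set.not_subset.mp hv2
  obtain ⟨D, hD, hDR⟩ := hkey p (hv1 hp1) hp2
  rw [Set.mem_iUnion₂]
  exact ⟨D, hD, hv1, hDR _ (d.regR.cj _) (cj_mono _ d.QR hp1)⟩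

lemma Data.exists_length (d : Data g h q A R Q) (H : Hyp G) (HF : Faithful G) {U : Subgroup G}
    (hU : IsCompact (U : Set G)) (hUo : Op U) :
    ∃ L : ℕ, ∀ v : List Bool, L ≤ v.length → ∀ u : List Bool,
      (cj (ev g h (u ++ v)) Q ≤ U ↔ cj (ev g h v) Q ≤ U) := by
  -- the exceptional set for one letter is finite
  have hexc : ∀ s : Bool, {v : List Bool |
      ¬ (cj (ev g h (s :: v)) Q ≤ U ↔ cj (ev g h v) Q ≤ U)}.Finite := by
    intro s
    have h1 := d.finite_bad H HF (W := cj (if s then g else h)⁻¹ U) hU (Op.cj hUo _)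
    have h2 := d.finite_bad H HF (W := cj (if s then g else h) U) hU (Op.cj hUo _)
    have h2' := h2.preimage (f := fun v : List Bool => s :: v)
      (fun a _ b _ hab => (List.cons.inj hab).2)
    apply (h1.union h2').subset
    intro v hv
    have hv' : ¬ (cj (ev g h (s :: v)) Q ≤ U ↔ cj (ev g h v) Q ≤ U) := hv
    rw [ev_cons, cj_mul] at hv'
    by_cases hgood : cj (ev g h v) Q ≤ U
    · left
      refine ⟨hgood, ?_⟩
      intro hcon
      apply hv'
      refine ⟨fun _ => hgood, fun _ => ?_⟩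
      rw [cj_le_iff]
      exact hcon
    · right
      rw [Set.mem_preimage]
      refine ⟨?_, ?_⟩
      · rw [ev_cons, cj_mul]
        by_contra hcon
        apply hv'
        exact ⟨fun h => absurd h hcon, fun h => absurd h hgood⟩
      · rw [ev_cons, cj_mul]
        intro hcon
        apply hgood
        have := cj_mono (if s then g else h)⁻¹ hcon
        simpa using this
  obtain ⟨L, hL⟩ : ∃ L : ℕ, ∀ s : Bool, ∀ v : List Bool, L ≤ v.length →
      (cj (ev g h (s :: v)) Q ≤ U ↔ cj (ev g h v) Q ≤ U) := by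
    have hfin := (hexc true).union (hexc false)
    obtain ⟨M, hM⟩ := (hfin.image List.length).bddAbove
    refine ⟨M + 1, ?_⟩
    intro s v hv
    by_contra hcon
    have : v.length ≤ M := by
      apply hM
      refine ⟨v, ?_, rfl⟩
      cases s
      · right; exact hcon
      · left; exact hcon
    omega
  refine ⟨L, ?_⟩
  intro v hv u
  induction u with
  | nil => simp
  | cons s u ih =>
    rw [List.cons_append, hL s (u ++ v) (by rw [List.length_append]; omega), ih]

/-- powers of `g` bring `Q` into `U` -/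
lemma Data.exists_power (d : Data g h q A R Q) (H : Hyp G) (HF : Faithful G)
    {U V : Subgroup G} (hUo : Op U) (hV : IsCompact (V : Set G))
    (hVg : cj g V = V) (hQV : Q ≤ V) (L : ℕ) :
    ∃ n : ℕ, L ≤ n ∧ cj (g ^ n) Q ≤ U := by
  obtain ⟨𝒟, hfin, hreg, -, hkey⟩ := exists_family H HF hV hUo
  by_contra hcon
  push Not at hcon
  have hVgn : ∀ n : ℕ, cj (g ^ n) V = V := by
    intro n
    induction n with
    | zero => simp
    | succ n ih => rw [pow_succ, cj_mul, hVg, ih]
  have hgA : ∀ n : ℕ, cj (g ^ n) A ≤ A := by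
    intro n
    induction n with
    | zero => simp
    | succ n ih => rw [pow_succ, cj_mul]; exact (cj_mono _ d.gA).trans ih
  have hex : ∀ n : ℕ, ∃ D ∈ 𝒟, D ≤ cj (g ^ (L + n)) R := by
    intro n
    obtain ⟨p, hp1, hp2⟩ := Set.not_subset.mp (hcon (L + n) (by omega))
    have hpV : p ∈ V := by
      have := cj_mono (g ^ (L + n)) hQV hp1
      rwa [hVgn] at this
    obtain ⟨D, hD, hDR⟩ := hkey p hpV hp2
    exact ⟨D, hD, hDR _ (d.regR.cj _) (cj_mono _ d.QR hp1)⟩
  choose f hf1 hf2 using hex
  have hinj : Function.Injective f := by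
    have key : ∀ m n : ℕ, m < n → f m ≠ f n := by
      intro m n hmn heq
      apply (hreg _ (hf1 m)).2
      rw [eq_bot_iff]
      have h1 : f m ≤ cj (g ^ (L + m)) R ⊓ cj (g ^ (L + m)) (cj g A) := by
        apply le_inf (hf2 m)
        rw [heq]
        refine (hf2 n).trans ((cj_mono _ d.RA).trans ?_)
        obtain ⟨k, rfl⟩ := Nat.exists_eq_add_of_lt hmn
        have e : g ^ (L + (m + k + 1)) = g ^ (L + m) * (g * g ^ k) := by
          rw [← pow_succ', ← pow_add]
          congr 1
          omega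
        rw [e, cj_mul, cj_mul]
        exact cj_mono _ (cj_mono _ (hgA k))
      rw [← cj_inf, d.Rg, cj_bot] at h1
      exact h1
    intro m n hmn
    rcases lt_trichotomy m n with h | h | h
    · exact absurd hmn (key m n h)
    · exact h
    · exact absurd hmn.symm (key n m h)
  have : (Set.range f).Infinite := Set.infinite_range_of_injective hinj
  apply this
  apply hfin.subset
  rintro _ ⟨n, rfl⟩
  exact hf1 n

/-- The final contradiction: with the data above, the element `f = g ^ n * h` normalizes no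
compact open subgroup as soon as all the elements `f ^ k g ^ n q g ^ (-n) f ^ (-k)` lie in `U`. -/
lemma Data.contra (d : Data g h q A R Q) (hAreg : ON A) {U V : Subgroup G}
    (hU : IsCompact (U : Set G)) (n : ℕ)
    (hq : ∀ k : ℕ, (g ^ n * h) ^ k * g ^ n * q * ((g ^ n * h) ^ k * g ^ n)⁻¹ ∈ U)
    (hV : IsCompact (V : Set G)) (hVo : Op V) (hVf : cj (g ^ n * h) V = V) : False := by
  classical
  set f := g ^ n * h with hf
  set x : ℕ → G := fun k => f ^ k * g ^ n * q * (f ^ k * g ^ n)⁻¹ with hx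
  have hgA : ∀ n : ℕ, cj (g ^ n) A ≤ A := by
    intro n
    induction n with
    | zero => simp
    | succ n ih => rw [pow_succ, cj_mul]; exact (cj_mono _ d.gA).trans ih
  have hfA : cj f A ≤ A := by
    rw [hf, cj_mul]
    exact (cj_mono _ d.hA).trans (hgA n)
  have hfpA : ∀ k : ℕ, cj (f ^ k) A ≤ A := by
    intro k
    induction k with
    | zero => simp
    | succ k ih => rw [pow_succ, cj_mul]; exact (cj_mono _ hfA).trans ih
  have hfmono : ∀ i j : ℕ, i ≤ j → cj (f ^ j) A ≤ cj (f ^ i) A := by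
    intro i j hij
    obtain ⟨k, rfl⟩ := Nat.exists_eq_add_of_le hij
    rw [pow_add, cj_mul]
    exact cj_mono _ (hfpA k)
  have hVfk : ∀ k : ℕ, cj (f ^ k) V = V := by
    intro k
    induction k with
    | zero => simp
    | succ k ih => rw [pow_succ, cj_mul, hVf, ih]
  -- two translates of `f^k A f^{-k}` are different
  have hdist : ∀ i j k : ℕ, i < j → j < k → cj (x i) (cj (f ^ k) A) ≠ cj (x j) (cj (f ^ k) A) := by
    intro i j k hij hjk heq
    have e1 : cj (x j) (cj (f ^ k) A) ≤ cj (f ^ (i + 1)) A := by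
      refine (cj_mono _ (hfmono j k hjk.le)).trans ?_
      have hmem : x j ∈ cj (f ^ j) A := by
        have h1 : x j ∈ cj (f ^ j * g ^ n) A := conj_mem_cj (d.RA (d.QR d.qQ))
        rw [cj_mul] at h1
        exact cj_mono _ (hgA n) h1
      rw [cj_of_mem hmem]
      exact hfmono (i + 1) j (by omega)
    have e2 : cj (f ^ (i + 1)) A = cj (f ^ i * g ^ n) (cj h A) := by
      rw [← cj_mul]
      congr 1
      rw [pow_succ]
      rw [hf]
      group
    have e3 : cj (x i) (cj (f ^ k) A) ≤ cj (f ^ i * g ^ n) (cj q (cj h A)) := by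
      refine (cj_mono _ (hfmono (i + 1) k (by omega))).trans ?_
      apply le_of_eq
      rw [e2]
      simp only [← cj_mul]
      congr 1
      simp only [hx]
      group
    apply cj_ne_bot (g := x i) (cj_ne_bot (g := f ^ k) d.A1)
    rw [eq_bot_iff]
    have e4 : cj (x i) (cj (f ^ k) A) ≤
        cj (f ^ i * g ^ n) (cj h A) ⊓ cj (f ^ i * g ^ n) (cj q (cj h A)) := by
      apply le_inf _ e3
      rw [heq, ← e2]
      exact e1
    rw [← cj_inf, d.qh, cj_bot] at e4
    exact e4
  -- pigeonhole on the cosets of `V`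
  obtain ⟨t, htU, ht⟩ := hU.elim_nhds_subcover (fun u => {y | u⁻¹ * y ∈ V}) (by
    intro u _
    have : IsOpen {y : G | u⁻¹ * y ∈ V} := hVo.preimage (f := fun y : G => u⁻¹ * y) (by fun_prop)
    apply this.mem_nhds
    simp only [Set.mem_ofPred_eq, inv_mul_cancel]
    exact V.one_mem)
  have hcol : ∀ k : ℕ, ∃ u : t, (u : G)⁻¹ * x k ∈ V := by
    intro k
    have := ht (hq k)
    rw [Set.mem_iUnion₂] at this
    obtain ⟨u, hu, hku⟩ := this
    exact ⟨⟨u, hu⟩, hku⟩
  choose c hc using hcol
  obtain ⟨u, hu⟩ := Finite.exists_infinite_fiber c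
  have hS : (c ⁻¹' {u}).Infinite := Set.infinite_coe_iff.mp hu
  obtain ⟨i0, hi0⟩ := hS.nonempty
  have hi0' : c i0 = u := hi0
  have hxV : ∀ j ∈ c ⁻¹' {u}, (x i0)⁻¹ * x j ∈ V := by
    intro j hj
    have hj' : c j = u := hj
    have h1 := hc i0
    have h2 := hc j
    rw [hi0'] at h1
    rw [hj'] at h2
    have := V.mul_mem (V.inv_mem h1) h2
    have e : ((u : G)⁻¹ * x i0)⁻¹ * ((u : G)⁻¹ * x j) = (x i0)⁻¹ * x j := by group
    rwa [e] at this
  -- the finite orbit
  set O : Set (Subgroup G) := {B | ∃ v ∈ V, B = cj v A} with hO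
  have hOfin : O.Finite := finite_orbit hV hAreg
  obtain ⟨T, hT1, hT2⟩ := hS.exists_subset_card_eq (hOfin.toFinset.card + 1)
  obtain ⟨k, hk⟩ : ∃ k : ℕ, ∀ j ∈ T, j < k := ⟨T.sup id + 1, fun j hj => by
    have := Finset.le_sup (f := id) hj
    simp only [id] at this
    omega⟩
  have hcard : T.card ≤ hOfin.toFinset.card := by
    apply Finset.card_le_card_of_injOn
      (fun j => cj ((f ^ k)⁻¹ * ((x i0)⁻¹ * x j) * f ^ k) A)
    · intro j hj
      rw [Finset.mem_coe, Set.Finite.mem_toFinset]
      refine ⟨_, ?_, rfl⟩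
      have h1 := hxV j (hT1 hj)
      rw [← hVfk k, mem_cj] at h1
      exact h1
    · intro i hi j hj hij
      by_contra hne
      have hij' : cj ((f ^ k)⁻¹ * ((x i0)⁻¹ * x i) * f ^ k) A =
        cj ((f ^ k)⁻¹ * ((x i0)⁻¹ * x j) * f ^ k) A := hij
      have e : ∀ m : ℕ, cj ((f ^ k)⁻¹ * ((x i0)⁻¹ * x m) * f ^ k) A =
          cj ((f ^ k)⁻¹ * (x i0)⁻¹) (cj (x m) (cj (f ^ k) A)) := by
        intro m
        rw [← cj_mul, ← cj_mul]
        congr 1
        group
      rw [e i, e j] at hij'
      have hij'' := cj_injective _ hij'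
      rcases lt_or_gt_of_ne hne with hlt | hlt
      · exact hdist i j k hlt (hk j hj) hij''
      · exact hdist j i k hlt (hk i hi) hij''.symm
  omega

section classS

variable [T2Space G] [LocallyCompactSpace G] [TotallyDisconnectedSpace G]

/-- Main theorem in terms of regular subgroups. -/
theorem main_reg (hS : ClassS G) {B : Subgroup G} (hB : Reg B) (hB1 : B ≠ ⊥) (hB2 : B ≠ ⊤) :
    ∃ g : G, ∀ V : Subgroup G, IsCompact (V : Set G) → Op V → cj g V ≠ V := by
  classical
  by_contra hcon
  push Not at hcon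
  have H := ClassS.hyp hS
  have HF : Faithful G := faithful_of hS hB hB1 hB2
  obtain ⟨A, hA, hA1, hmin⟩ := exists_selfMinorising hS HF
  obtain ⟨B', hB', hB'1, hB'A, hB'ne⟩ := not_minimal H HF hA hA1
  obtain ⟨g, hg⟩ := hmin B' hB' hB'1 hB'A
  have hgA : cj g A ≤ A := hg.trans hB'A
  set R := A ⊓ Ce (cj g A) with hR
  have hRreg : Reg R := Reg.inf hA (hA.cj g).ce
  have hRne : R ≠ ⊥ := by
    intro h
    have := H.le_of_inf_Ce hA.on (hA.cj g) h
    exact hB'ne (le_antisymm hB'A (this.trans hg))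
  obtain ⟨V, hVc, hVo, hVg⟩ := hcon g
  set Q := R ⊓ V with hQ
  have hQne : Q ≠ ⊥ := by
    intro h
    exact hRne (H.eq_bot_of_inf_open hRreg.on hVo h)
  obtain ⟨q0, hq0, hq01⟩ := (Subgroup.ne_bot_iff_exists_ne_one (H := Q)).mp hQne |>.imp
    (fun a ha => ha) |> fun ⟨a, ha⟩ => (⟨(a : G), a.2, fun h => ha (Subtype.ext h)⟩ :
      ∃ q0 : G, q0 ∈ Q ∧ q0 ≠ 1)
  -- an element of `Q` moving a regular subgroup of `R` off itself
  obtain ⟨q, hqQ, D, hD, hD1, hDR, hqD⟩ : ∃ q ∈ Q, ∃ D : Subgroup G, Reg D ∧ D ≠ ⊥ ∧ D ≤ R ∧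
      D ⊓ cj q D = ⊥ := by
    have hex : ∃ E : Subgroup G, Reg E ∧ cj q0 E ≠ E := by
      by_contra hno
      push Not at hno
      exact hq01 (HF q0 hno)
    obtain ⟨E, hE, hEne⟩ := hex
    obtain ⟨D, hD, hD1, hD2, hD3⟩ := H.moved' hE hEne
    have hDR := hD3 R hRreg (Subgroup.mem_inf.mp hq0).1
    rcases hD2 with h | h
    · exact ⟨q0, hq0, D, hD, hD1, hDR, h⟩
    · exact ⟨q0⁻¹, Q.inv_mem hq0, D, hD, hD1, hDR, h⟩
  obtain ⟨h, hh⟩ := hmin D hD hD1 (hDR.trans inf_le_left)
  have d : Data g h q A R Q :=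
    { A1 := hA1
      regR := hRreg
      RA := inf_le_left
      gA := hgA
      hR := hh.trans hDR
      Rg := by
        rw [eq_bot_iff, ← H.inf_Ce (hA.cj g).on]
        intro x hx
        obtain ⟨hx1, hx2⟩ := Subgroup.mem_inf.mp hx
        exact Subgroup.mem_inf.mpr ⟨hx2, (Subgroup.mem_inf.mp hx1).2⟩
      QR := inf_le_left
      qQ := hqQ
      qh := by
        rw [eq_bot_iff, ← hqD]
        exact inf_le_inf hh (cj_mono _ hh) }
  obtain ⟨U, hUo, hUc⟩ := exists_co G
  obtain ⟨L, hL⟩ := d.exists_length H HF hUc hUo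
  obtain ⟨n, hn, hgood⟩ := d.exists_power H HF hUo hVc hVg inf_le_right L
  obtain ⟨V', hV'c, hV'o, hV'f⟩ := hcon (g ^ n * h)
  apply d.contra hA.on hUc n _ hV'c hV'o hV'f
  intro k
  -- the word `(g^n h)^k g^n`
  obtain ⟨w, hw⟩ : ∃ w : List Bool, ev g h w = (g ^ n * h) ^ k := by
    clear hV'f
    induction k with
    | zero => exact ⟨[], by simp⟩
    | succ k ih =>
      obtain ⟨w, hw⟩ := ih
      refine ⟨w ++ (List.replicate n true ++ [false]), ?_⟩
      rw [ev_append, ev_append, ev_replicate, hw, pow_succ]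
      simp [ev_cons]
  have hgood' : cj (ev g h (List.replicate n true)) Q ≤ U := by
    rw [ev_replicate]
    exact hgood
  have h1 := (hL (List.replicate n true) (by simpa using hn) w).mpr hgood'
  rw [ev_append, ev_replicate, hw] at h1
  exact h1 (conj_mem_cj hqQ)

end classS

end Pool.Agent.Lib.H69.Tdlc
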