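import Pool.Agent.Lib.H69.Tdlc.Abelian

/-!
Finite invariant families of regular subgroups, and a finite minorising family, in groups of the
class `𝒮`.
-/

namespace Pool.Agent.Lib.H69.Tdlc

open Pointwise Topology

universe u

variable {G : Type u} [Group G] [TopologicalSpace G]

/-- The action of `G` on regular subgroups is faithful. -/
def Faithful (G : Type u) [Group G] [TopologicalSpace G] : Prop :=
  ∀ x : G, (∀ B : Subgroup G, Reg B → cj x B = B) → x = 1

variable [IsTopologicalGroup G]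

lemma Hyp.moved' (H : Hyp G) {B : Subgroup G} (hB : Reg B) {p : G} (h : cj p B ≠ B) :
    ∃ D : Subgroup G, Reg D ∧ D ≠ ⊥ ∧ (D ⊓ cj p D = ⊥ ∨ D ⊓ cj p⁻¹ D = ⊥) ∧
      ∀ R : Subgroup G, Reg R → p ∈ R → D ≤ R := by
  obtain ⟨D, hD, hD1, hD2⟩ := H.moved hB h
  have hpB : Reg (cj p B) := hB.cj p
  rcases hD with rfl | rfl
  · refine ⟨_, Reg.inf hB hpB.ce, hD1, Or.inl ?_, hD2⟩
    rw [eq_bot_iff, ← H.inf_Ce hpB.on]
    intro x hx
    obtain ⟨hx1, hx2⟩ := Subgroup.mem_inf.mp hx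
    refine Subgroup.mem_inf.mpr ⟨?_, (Subgroup.mem_inf.mp hx1).2⟩
    exact cj_mono p inf_le_left hx2
  · refine ⟨_, Reg.inf hpB hB.ce, hD1, Or.inr ?_, hD2⟩
    rw [eq_bot_iff, ← H.inf_Ce hB.on]
    intro x hx
    obtain ⟨hx1, hx2⟩ := Subgroup.mem_inf.mp hx
    refine Subgroup.mem_inf.mpr ⟨?_, (Subgroup.mem_inf.mp hx1).2⟩
    have := cj_mono p⁻¹ (inf_le_left (a := cj p B) (b := Ce B)) hx2
    simpa using this

lemma exists_family (H : Hyp G) (HF : Faithful G) {U W : Subgroup G}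
    (hU : IsCompact (U : Set G)) (hW : Op W) :
    ∃ 𝒟 : Set (Subgroup G), 𝒟.Finite ∧ (∀ D ∈ 𝒟, Reg D ∧ D ≠ ⊥) ∧
      (∀ u ∈ U, ∀ D ∈ 𝒟, cj u D ∈ 𝒟) ∧
      ∀ p ∈ U, p ∉ W → ∃ D ∈ 𝒟, ∀ R : Subgroup G, Reg R → p ∈ R → D ≤ R := by
  classical
  have hc : IsCompact ((U : Set G) \ W) := hU.diff hW
  obtain ⟨t, ht⟩ := hc.elim_finite_subcover
    (fun B : {B : Subgroup G // Reg B} => ((No B.1 : Subgroup G) : Set G)ᶜ)
    (by
      intro B
      rw [isOpen_compl_iff]
      exact Subgroup.isClosed_of_isOpen _ B.2.on)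
    (by
      intro x hx
      rw [Set.mem_iUnion]
      by_contra hcon
      push Not at hcon
      apply hx.2
      have : x = 1 := by
        apply HF
        intro B hB
        have := hcon ⟨B, hB⟩
        rw [Set.mem_compl_iff, not_not, SetLike.mem_coe, mem_No_iff] at this
        exact this
      rw [this]
      exact W.one_mem)
  set ℱ : Set (Subgroup G) := ⋃ B ∈ t, {A | ∃ u ∈ U, A = cj u B.1} with hℱ
  have hfin : ℱ.Finite := by
    apply Set.Finite.biUnion t.finite_toSet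
    intro B _
    exact finite_orbit hU B.2.on
  have hmem : ∀ A, A ∈ ℱ ↔ ∃ B ∈ t, ∃ u ∈ U, A = cj u B.1 := by
    intro A
    simp only [hℱ, Set.mem_iUnion, exists_prop]
    rfl
  have hreg : ∀ A ∈ ℱ, Reg A := by
    intro A hA
    obtain ⟨B, _, u, _, rfl⟩ := (hmem A).mp hA
    exact B.2.cj u
  have hinv : ∀ u ∈ U, ∀ A ∈ ℱ, cj u A ∈ ℱ := by
    intro u hu A hA
    obtain ⟨B, hB, v, hv, rfl⟩ := (hmem A).mp hA
    rw [hmem]
    exact ⟨B, hB, u * v, U.mul_mem hu hv, by rw [cj_mul]⟩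
  refine ⟨{D | D ≠ ⊥ ∧ ∃ B ∈ ℱ, ∃ B' ∈ ℱ, D = B ⊓ Ce B'}, ?_, ?_, ?_, ?_⟩
  · apply ((hfin.prod hfin).image (fun x : Subgroup G × Subgroup G => x.1 ⊓ Ce x.2)).subset
    rintro D ⟨_, B, hB, B', hB', rfl⟩
    exact ⟨(B, B'), ⟨hB, hB'⟩, rfl⟩
  · rintro D ⟨hD, B, hB, B', hB', rfl⟩
    exact ⟨Reg.inf (hreg B hB) (hreg B' hB').ce, hD⟩
  · rintro u hu D ⟨hD, B, hB, B', hB', rfl⟩
    refine ⟨cj_ne_bot hD, cj u B, hinv u hu B hB, cj u B', hinv u hu B' hB', ?_⟩
    rw [cj_inf, cj_Ce]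
  · intro p hp hpW
    have := ht ⟨hp, hpW⟩
    rw [Set.mem_iUnion₂] at this
    obtain ⟨B, hB, hpB⟩ := this
    have hpB' : cj p B.1 ≠ B.1 := by
      intro h
      exact hpB (mem_No_iff.mpr h)
    obtain ⟨D, hD, hD1, hD2⟩ := H.moved B.2 hpB'
    have hBm : B.1 ∈ ℱ := (hmem _).mpr ⟨B, hB, 1, U.one_mem, by simp⟩
    have hBm' : cj p B.1 ∈ ℱ := hinv p hp _ hBm
    refine ⟨D, ⟨hD1, ?_⟩, hD2⟩
    rcases hD with rfl | rfl
    · exact ⟨_, hBm, _, hBm', rfl⟩
    · exact ⟨_, hBm', _, hBm, rfl⟩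

/-- every nontrivial regular subgroup contains properly a nontrivial one -/
lemma not_minimal (H : Hyp G) (HF : Faithful G) {A : Subgroup G} (hA : Reg A) (hA1 : A ≠ ⊥) :
    ∃ B : Subgroup G, Reg B ∧ B ≠ ⊥ ∧ B ≤ A ∧ B ≠ A := by
  by_contra hcon
  push Not at hcon
  apply hA1
  rw [eq_bot_iff]
  intro a ha
  rw [Subgroup.mem_bot]
  apply HF
  intro E hE
  by_cases h : E ⊓ A = ⊥
  · have h1 : A ≤ Ce E := by
      apply H.le_Ce_of_inf_bot hA.on hE.on
      rw [inf_comm]
      exact h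
    have h2 := h1 ha
    rw [mem_Ce] at h2
    ext y
    rw [mem_cj]
    constructor
    · intro hy
      have := h2 _ hy
      have e : y = a⁻¹ * y * a := by
        have h3 : a * (a⁻¹ * y * a) * a⁻¹ = y := by group
        rw [← this] at h3
        have h4 : a⁻¹ * y * a * a * a⁻¹ = a⁻¹ * y * a := by group
        rw [h4] at h3
        exact h3.symm
      rw [e]
      exact hy
    · intro hy
      have := h2 _ hy
      have e : a⁻¹ * y * a = y := by
        rw [mul_assoc, this]; group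
      rwa [e]
  · have h1 := hcon (E ⊓ A) (Reg.inf hE hA) h inf_le_right
    have h2 : a ∈ E := by
      rw [← h1] at ha
      exact (Subgroup.mem_inf.mp ha).1
    exact cj_of_mem h2

section classS

variable [T2Space G] [LocallyCompactSpace G] [TotallyDisconnectedSpace G]

lemma exists_minorising (hS : ClassS G) (HF : Faithful G) :
    ∃ 𝒟 : Set (Subgroup G), 𝒟.Finite ∧ (∀ D ∈ 𝒟, Reg D ∧ D ≠ ⊥) ∧
      ∀ B : Subgroup G, Reg B → B ≠ ⊥ → ∃ D ∈ 𝒟, ∃ g : G, cj g D ≤ B := by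
  classical
  have H := ClassS.hyp hS
  obtain ⟨U, hUo, hUc⟩ := exists_co G
  obtain ⟨t, ht⟩ := exists_finset_closure hS hUo (fun x : G => ({x} : Set G)) (by
    rw [eq_top_iff]
    intro x _
    apply Subgroup.subset_closure
    right
    rw [Set.mem_iUnion]
    exact ⟨x, rfl⟩)
  set U1 : Subgroup G := sInf ((fun s => cj s U ⊓ cj s⁻¹ U) '' (t : Set G)) with hU1
  have hU1o : Op U1 := by
    apply op_biInf (t.finite_toSet.image _)
    rintro _ ⟨s, _, rfl⟩
    exact Op.inf (Op.cj hUo s) (Op.cj hUo s⁻¹)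
  have hU1a : ∀ s ∈ t, U1 ≤ cj s U := by
    intro s hs
    have : U1 ≤ cj s U ⊓ cj s⁻¹ U := sInf_le ⟨s, hs, rfl⟩
    exact this.trans inf_le_left
  have hU1b : ∀ s ∈ t, U1 ≤ cj s⁻¹ U := by
    intro s hs
    have : U1 ≤ cj s U ⊓ cj s⁻¹ U := sInf_le ⟨s, hs, rfl⟩
    exact this.trans inf_le_right
  obtain ⟨𝒟, hfin, hreg, _, hkey⟩ := exists_family H HF hUc hU1o
  refine ⟨𝒟, hfin, hreg, ?_⟩
  intro B hB hB1
  set K := B ⊓ U with hK
  have hKne : K ≠ ⊥ := by
    intro h
    exact hB1 (H.eq_bot_of_inf_open hB.on hUo h)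
  have hex : ∃ g : G, K ≤ cj g U ∧ ¬ cj g⁻¹ K ≤ U1 := by
    by_contra hcon
    push Not at hcon
    let S : Subgroup G :=
      { carrier := {x | ∀ g : G, K ≤ cj g U ↔ K ≤ cj (g * x) U}
        one_mem' := by intro g; simp
        mul_mem' := by
          intro a b ha hb g
          rw [ha g, hb (g * a), mul_assoc]
        inv_mem' := by
          intro a ha g
          have := ha (g * a⁻¹)
          simp only [inv_mul_cancel_right] at this
          exact this.symm }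
    have hSmem : ∀ x : G, x ∈ S ↔ ∀ g : G, K ≤ cj g U ↔ K ≤ cj (g * x) U := fun x => Iff.rfl
    have hStop : S = ⊤ := by
      rw [eq_top_iff, ← ht, Subgroup.closure_le]
      rintro x (hx | hx)
      · intro g
        rw [cj_mul, cj_of_mem hx]
      · rw [Set.mem_iUnion₂] at hx
        obtain ⟨s, hs, hxs⟩ := hx
        rw [Set.mem_singleton_iff] at hxs
        subst hxs
        intro g
        constructor
        · intro h
          have h1 := (hcon g h).trans (hU1a x hs)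
          rw [cj_le_iff, inv_inv, ← cj_mul] at h1
          exact h1
        · intro h
          have h1 := (hcon (g * x) h).trans (hU1b x hs)
          rw [cj_le_iff, inv_inv, ← cj_mul] at h1
          simpa using h1
    have hall : ∀ x : G, K ≤ cj x U := by
      intro x
      have hx : x ∈ S := by rw [hStop]; exact Subgroup.mem_top x
      have := (hSmem x).mp hx 1
      rw [one_mul, cj_one] at this
      exact this.mp inf_le_right
    set M : Subgroup G := ⨅ x : G, cj x U with hM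
    have hMi : ∀ g : G, cj g M = M := by
      have key : ∀ g : G, cj g M ≤ M := by
        intro g
        rw [hM]
        apply le_iInf
        intro x
        rw [cj_le_iff, ← cj_mul]
        exact iInf_le _ _
      intro g
      apply le_antisymm (key g)
      have := key g⁻¹
      rw [cj_le_iff, inv_inv] at this
      exact this
    have hMU : M ≤ U := by
      have : M ≤ cj 1 U := iInf_le _ _
      simpa using this
    have hMbot := eq_bot_of_normal_le hS hUc hMi hMU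
    apply hKne
    rw [eq_bot_iff, ← hMbot]
    exact le_iInf hall
  obtain ⟨g, hg1, hg2⟩ := hex
  obtain ⟨p, hp1, hp2⟩ := Set.not_subset.mp hg2
  have hpU : p ∈ U := by
    have := cj_mono g⁻¹ hg1
    rw [cj_inv_cj] at this
    exact this hp1
  have hpB : p ∈ cj g⁻¹ B := cj_mono g⁻¹ (inf_le_left (a := B) (b := U)) hp1
  obtain ⟨D, hD, hDR⟩ := hkey p hpU hp2
  refine ⟨D, hD, g, ?_⟩
  rw [cj_le_iff]
  exact hDR _ (hB.cj g⁻¹) hpB

lemma exists_selfMinorising (hS : ClassS G) (HF : Faithful G) :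
    ∃ A : Subgroup G, Reg A ∧ A ≠ ⊥ ∧
      ∀ B : Subgroup G, Reg B → B ≠ ⊥ → B ≤ A → ∃ h : G, cj h A ≤ B := by
  classical
  obtain ⟨𝒟, hfin, hreg, hmin⟩ := exists_minorising hS HF
  have hfin' : Finite 𝒟 := hfin
  let r : 𝒟 → 𝒟 → Prop := fun D D' => (∃ g : G, cj g D.1 ≤ D'.1) ∧ ¬ (∃ g : G, cj g D'.1 ≤ D.1)
  have htrans : IsTrans 𝒟 r := by
    constructor
    rintro a b c ⟨⟨g, hg⟩, hab⟩ ⟨⟨h, hh⟩, hbc⟩
    refine ⟨⟨h * g, ?_⟩, ?_⟩
    · rw [cj_mul]
      exact (cj_mono h hg).trans hh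
    · rintro ⟨k, hk⟩
      apply hbc
      refine ⟨g * k, ?_⟩
      rw [cj_mul]
      exact (cj_mono g hk).trans hg
  have hirr : Std.Irrefl r := ⟨fun a h => h.2 h.1⟩
  have hwf : WellFounded r := Finite.wellFounded_of_trans_of_irrefl r
  have htopReg : Reg (⊤ : Subgroup G) := by
    have hb : ON (⊥ : Subgroup G) := by
      have : No (⊥ : Subgroup G) = ⊤ := by
        rw [eq_top_iff]
        intro x _
        rw [mem_No_iff, cj_bot]
      unfold ON
      rw [this]
      simp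
    have : Ce (⊥ : Subgroup G) = ⊤ := by
      rw [eq_top_iff]
      intro x _
      rw [mem_Ce]
      intro a ha
      rw [Subgroup.mem_bot] at ha
      subst ha
      simp
    rw [← this]
    exact ON.regCe hb
  have htopne : (⊤ : Subgroup G) ≠ ⊥ := by
    have := hS.nontrivial
    exact top_ne_bot
  obtain ⟨D0, hD0, _⟩ := hmin ⊤ htopReg htopne
  obtain ⟨A, _, hAmin⟩ := hwf.has_min (Set.univ : Set 𝒟) ⟨⟨D0, hD0⟩, Set.mem_univ _⟩
  refine ⟨A.1, (hreg A.1 A.2).1, (hreg A.1 A.2).2, ?_⟩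
  intro B hB hB1 hBA
  obtain ⟨D, hD, g, hg⟩ := hmin B hB hB1
  have h1 : ¬ r ⟨D, hD⟩ A := hAmin ⟨D, hD⟩ (Set.mem_univ _)
  have h2 : ∃ k : G, cj k A.1 ≤ D := by
    by_contra hcon
    exact h1 ⟨⟨g, hg.trans hBA⟩, hcon⟩
  obtain ⟨k, hk⟩ := h2
  refine ⟨g * k, ?_⟩
  rw [cj_mul]
  exact (cj_mono g hk).trans hg

lemma faithful_of (hS : ClassS G) {B : Subgroup G} (hB : Reg B) (hB1 : B ≠ ⊥) (hB2 : B ≠ ⊤) :
    Faithful G := by
  set N : Subgroup G := ⨅ E : {E : Subgroup G // Reg E}, No E.1 with hN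
  have hNi : ∀ g : G, cj g N = N := by
    have key : ∀ g : G, cj g N ≤ N := by
      intro g
      rw [hN]
      apply le_iInf
      intro E
      rw [cj_le_iff, cj_No]
      exact iInf_le (fun E : {E : Subgroup G // Reg E} => No E.1) ⟨cj g⁻¹ E.1, E.2.cj g⁻¹⟩
    intro g
    apply le_antisymm (key g)
    have := key g⁻¹
    rw [cj_le_iff, inv_inv] at this
    exact this
  have hNc : IsClosed (N : Set G) := by
    have : (N : Set G) = ⋂ E : {E : Subgroup G // Reg E}, ((No E.1 : Subgroup G) : Set G) := by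
      rw [hN, Subgroup.coe_iInf]
    rw [this]
    apply isClosed_iInter
    intro E
    exact Subgroup.isClosed_of_isOpen _ E.2.on
  rcases hS.simple N (normal_of_cj hNi) hNc with h | h
  · intro x hx
    have : x ∈ N := by
      rw [hN, Subgroup.mem_iInf]
      intro E
      exact mem_No_iff.mpr (hx E.1 E.2)
    rwa [h, Subgroup.mem_bot] at this
  · exfalso
    have hBn : ∀ g : G, cj g B = B := by
      intro g
      have hg : g ∈ N := by rw [h]; exact Subgroup.mem_top g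
      rw [hN, Subgroup.mem_iInf] at hg
      exact mem_No_iff.mp (hg ⟨B, hB⟩)
    have hBc : IsClosed (B : Set G) := by
      rw [← hB.cc]
      exact Set.isClosed_centralizer _
    rcases hS.simple B (normal_of_cj hBn) hBc with h | h
    · exact hB1 h
    · exact hB2 h

end classS

end Pool.Agent.Lib.H69.Tdlc
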