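import Pool.Agent.Lib.H69.Tdlc.Alg

/-!
Topological preliminaries: van Dantzig's theorem, finiteness of orbits of compact subgroups on
subgroups with open normalizer, compact generation, and the basic properties of the class `𝒮`.
-/

namespace Pool.Agent.Lib.H69.Tdlc

open Pointwise Topology

universe u

variable {G : Type u} [Group G] [TopologicalSpace G]

/-- **van Dantzig**: compact open subgroups form a basis of neighbourhoods of `1`. -/
theorem exists_compact_open_subgroup [IsTopologicalGroup G] [T2Space G] [LocallyCompactSpace G]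
    [TotallyDisconnectedSpace G] {O : Set G} (hO : O ∈ 𝓝 (1 : G)) :
    ∃ V : Subgroup G, IsOpen (V : Set G) ∧ IsCompact (V : Set G) ∧ (V : Set G) ⊆ O := by
  -- a compact neighbourhood inside `O`
  obtain ⟨C, hC1, hCO, hCc⟩ := local_compact_nhds hO
  -- a clopen neighbourhood inside the interior of `C`
  obtain ⟨W, ⟨hWclopen, hW1, hWC⟩⟩ :
      ∃ W : Set G, IsClopen W ∧ (1 : G) ∈ W ∧ W ⊆ interior C := by
    have hb := loc_compact_Haus_tot_disc_of_zero_dim (H := G)
    obtain ⟨W, hW, h1, h2⟩ := hb.exists_subset_of_mem_open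
      (mem_interior_iff_mem_nhds.mpr hC1) isOpen_interior
    exact ⟨W, hW, h1, h2⟩
  have hWC' : W ⊆ C := hWC.trans interior_subset
  have hWc : IsCompact W := hCc.of_isClosed_subset hWclopen.isClosed hWC'
  -- the set of `x` with `W x ⊆ W` is open
  let T : Set G := {x | ∀ w ∈ W, w * x ∈ W}
  have hTopen : IsOpen T := by
    have hcont : Continuous (fun x : G => (⟨fun w => w * x, by fun_prop⟩ : C(G, G))) := by
      apply ContinuousMap.continuous_of_continuous_uncurry
      exact continuous_snd.mul continuous_fst
    have h1 : IsOpen {f : C(G, G) | Set.MapsTo f W W} :=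
      ContinuousMap.isOpen_setOfPred_mapsTo hWc hWclopen.isOpen
    exact h1.preimage hcont
  have hT1 : (1 : G) ∈ T := by
    intro w hw
    simpa using hw
  let V : Subgroup G :=
    { carrier := {x | x ∈ T ∧ x⁻¹ ∈ T}
      one_mem' := by
        refine ⟨hT1, ?_⟩
        simpa using hT1
      mul_mem' := by
        rintro a b ⟨ha, ha'⟩ ⟨hb, hb'⟩
        refine ⟨?_, ?_⟩
        · intro w hw
          rw [← mul_assoc]
          exact hb _ (ha w hw)
        · intro w hw
          rw [mul_inv_rev, ← mul_assoc]
          exact ha' _ (hb' w hw)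
      inv_mem' := by
        rintro a ⟨ha, ha'⟩
        refine ⟨ha', ?_⟩
        simpa using ha }
  have hVopen : IsOpen (V : Set G) := by
    have : (V : Set G) = T ∩ (fun x => x⁻¹) ⁻¹' T := rfl
    rw [this]
    exact hTopen.inter (hTopen.preimage continuous_inv)
  have hVW : (V : Set G) ⊆ W := by
    intro x hx
    have := hx.1 1 hW1
    simpa using this
  refine ⟨V, hVopen, ?_, hVW.trans (hWC'.trans hCO)⟩
  exact hWc.of_isClosed_subset (Subgroup.isClosed_of_isOpen V hVopen) hVW

section orbits

variable [IsTopologicalGroup G]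

/-- Orbits of compact subgroups on subgroups with open normalizer are finite. -/
lemma finite_orbit {U B : Subgroup G} (hU : IsCompact (U : Set G)) (hB : ON B) :
    {A : Subgroup G | ∃ u ∈ U, A = cj u B}.Finite := by
  obtain ⟨t, htU, ht⟩ := hU.elim_nhds_subcover (fun u => {x | u⁻¹ * x ∈ No B}) (by
    intro u _
    have : IsOpen {x : G | u⁻¹ * x ∈ No B} :=
      hB.preimage (f := fun x : G => u⁻¹ * x) (by fun_prop)
    apply this.mem_nhds
    simp only [Set.mem_setOf_eq, inv_mul_cancel]
    exact (No B).one_mem)
  apply ((t.finite_toSet).image (fun u => cj u B)).subset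
  rintro A ⟨u, hu, rfl⟩
  have := ht hu
  rw [Set.mem_iUnion₂] at this
  obtain ⟨v, hv, hvu⟩ := this
  refine ⟨v, hv, ?_⟩
  have h1 : cj (v⁻¹ * u) B = B := mem_No_iff.mp hvu
  have h2 : cj u B = cj v (cj (v⁻¹ * u) B) := by rw [← cj_mul]; simp
  rw [h2, h1]

lemma op_biInf {s : Set (Subgroup G)} (hs : s.Finite) (h : ∀ A ∈ s, Op A) : Op (sInf s) := by
  unfold Op
  have : ((sInf s : Subgroup G) : Set G) = ⋂ A ∈ s, (A : Set G) := by
    simp [Subgroup.coe_sInf]
  rw [this]
  exact hs.isOpen_biInter h

/-- Inside a compact open subgroup `U`, every open subgroup contains a `U`-invariant one. -/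
lemma exists_invariant {U W : Subgroup G} (hU : IsCompact (U : Set G)) (hUo : Op U) (hW : Op W) :
    ∃ M : Subgroup G, Op M ∧ M ≤ W ∧ M ≤ U ∧ ∀ u ∈ U, cj u M = M := by
  have hWU : Op (W ⊓ U) := Op.inf hW hUo
  set s : Set (Subgroup G) := {A | ∃ u ∈ U, A = cj u (W ⊓ U)} with hs
  have hfin : s.Finite := finite_orbit hU (Op.on hWU)
  refine ⟨sInf s, ?_, ?_, ?_, ?_⟩
  · apply op_biInf hfin
    rintro A ⟨u, _, rfl⟩
    exact Op.cj hWU u
  · apply (sInf_le (show W ⊓ U ∈ s from ⟨1, U.one_mem, by simp⟩)).trans inf_le_left
  · apply (sInf_le (show W ⊓ U ∈ s from ⟨1, U.one_mem, by simp⟩)).trans inf_le_right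
  · have key : ∀ u ∈ U, sInf s ≤ cj u (sInf s) := by
      intro u hu x hx
      rw [mem_cj, Subgroup.mem_sInf]
      rintro A ⟨v, hv, rfl⟩
      rw [Subgroup.mem_sInf] at hx
      have := hx (cj (u * v) (W ⊓ U)) ⟨u * v, U.mul_mem hu hv, rfl⟩
      rw [cj_mul, mem_cj] at this
      exact this
    intro u hu
    apply le_antisymm _ (key u hu)
    have := key u⁻¹ (U.inv_mem hu)
    rw [cj_le_iff]
    exact this

end orbits

/-- The class `𝒮`: nondiscrete, compactly generated, topologically simple, totally disconnected
locally compact groups (topologically simple: nontrivial, and the only closed normal subgroups are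
the trivial one and the whole group). -/
structure ClassS (G : Type u) [Group G] [TopologicalSpace G] : Prop where
  isTopologicalGroup : IsTopologicalGroup G
  t2 : T2Space G
  locallyCompact : LocallyCompactSpace G
  totallyDisconnected : TotallyDisconnectedSpace G
  nondiscrete : ¬ DiscreteTopology G
  compactlyGenerated : ∃ K : Set G, IsCompact K ∧ Subgroup.closure K = ⊤
  nontrivial : Nontrivial G
  simple : ∀ N : Subgroup G, N.Normal → IsClosed (N : Set G) → N = ⊥ ∨ N = ⊤

section classS

variable [IsTopologicalGroup G] [T2Space G] [LocallyCompactSpace G] [TotallyDisconnectedSpace G]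

lemma exists_co (G : Type u) [Group G] [TopologicalSpace G] [IsTopologicalGroup G] [T2Space G]
    [LocallyCompactSpace G] [TotallyDisconnectedSpace G] :
    ∃ U : Subgroup G, Op U ∧ IsCompact (U : Set G) := by
  obtain ⟨V, h1, h2, _⟩ := exists_compact_open_subgroup (G := G) (O := Set.univ) Filter.univ_mem
  exact ⟨V, h1, h2⟩

omit [LocallyCompactSpace G] [TotallyDisconnectedSpace G] [T2Space G] in
lemma not_op_bot (hS : ClassS G) : ¬ Op (⊥ : Subgroup G) := by
  intro h
  apply hS.nondiscrete
  rw [discreteTopology_iff_isOpen_singleton_one]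
  simpa [Op] using h

omit [IsTopologicalGroup G] [T2Space G] [LocallyCompactSpace G] [TotallyDisconnectedSpace G] in
lemma normal_of_cj {M : Subgroup G} (h : ∀ g : G, cj g M = M) : M.Normal := by
  constructor
  intro x hx g
  rw [← h g]
  exact conj_mem_cj hx

lemma not_compact (hS : ClassS G) {V : Subgroup G} (hV : IsCompact (V : Set G)) : V ≠ ⊤ := by
  rintro rfl
  have : CompactSpace G := ⟨by simpa using hV⟩
  have := hS.nontrivial
  obtain ⟨x, hx⟩ := exists_ne (1 : G)
  obtain ⟨W, hWo, hWc, hWx⟩ := exists_compact_open_subgroup (G := G) (O := {x}ᶜ)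
    (isOpen_compl_singleton.mem_nhds (by simpa using hx.symm))
  obtain ⟨M, hMo, hMW, _, hMi⟩ := exists_invariant (U := (⊤ : Subgroup G)) (W := W)
    (by simpa using hV) (by simp [Op]) hWo
  have hMn : M.Normal := normal_of_cj (fun g => hMi g (Subgroup.mem_top g))
  rcases hS.simple M hMn (Subgroup.isClosed_of_isOpen M hMo) with h | h
  · rw [h] at hMo
    exact not_op_bot hS hMo
  · rw [h] at hMW
    have : x ∈ W := hMW (Subgroup.mem_top x)
    exact hWx this rfl

lemma eq_bot_of_normal_le (hS : ClassS G) {M V : Subgroup G} (hV : IsCompact (V : Set G))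
    (hM : ∀ g : G, cj g M = M) (hMV : M ≤ V) : M = ⊥ := by
  have hMn : M.Normal := normal_of_cj hM
  have hn : M.topologicalClosure.Normal := Subgroup.is_normal_topologicalClosure M
  rcases hS.simple _ hn M.isClosed_topologicalClosure with h | h
  · rw [eq_bot_iff, ← h]
    exact M.le_topologicalClosure
  · exfalso
    have : M.topologicalClosure ≤ V := M.topologicalClosure_minimal hMV hV.isClosed
    rw [h] at this
    exact not_compact hS hV (top_le_iff.mp this)

omit [T2Space G] [LocallyCompactSpace G] [TotallyDisconnectedSpace G] in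
/-- finite generation over an open subgroup -/
lemma exists_finset_closure (hS : ClassS G) {U : Subgroup G} (hU : Op U) {ι : Type*}
    (P : ι → Set G) (h : Subgroup.closure ((U : Set G) ∪ ⋃ i, P i) = ⊤) :
    ∃ t : Finset ι, Subgroup.closure ((U : Set G) ∪ ⋃ i ∈ t, P i) = ⊤ := by
  classical
  have hmono : ∀ {s t : Finset ι}, s ⊆ t →
      Subgroup.closure ((U : Set G) ∪ ⋃ i ∈ s, P i) ≤
        Subgroup.closure ((U : Set G) ∪ ⋃ i ∈ t, P i) := by
    intro s t hst
    apply Subgroup.closure_mono
    apply Set.union_subset_union_right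
    exact Set.biUnion_subset_biUnion_left hst
  have hcover : ∀ g : G, ∃ t : Finset ι, g ∈ Subgroup.closure ((U : Set G) ∪ ⋃ i ∈ t, P i) := by
    intro g
    have hg : g ∈ Subgroup.closure ((U : Set G) ∪ ⋃ i, P i) := by rw [h]; exact Subgroup.mem_top g
    refine Subgroup.closure_induction (p := fun g _ => ∃ t : Finset ι,
      g ∈ Subgroup.closure ((U : Set G) ∪ ⋃ i ∈ t, P i)) ?_ ?_ ?_ ?_ hg
    · rintro x (hx | hx)
      · exact ⟨∅, Subgroup.subset_closure (Or.inl hx)⟩
      · rw [Set.mem_iUnion] at hx
        obtain ⟨i, hi⟩ := hx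
        refine ⟨{i}, Subgroup.subset_closure (Or.inr ?_)⟩
        simpa using hi
    · exact ⟨∅, Subgroup.one_mem _⟩
    · rintro x y _ _ ⟨s, hs⟩ ⟨t, ht⟩
      exact ⟨s ∪ t, Subgroup.mul_mem _ (hmono Finset.subset_union_left hs)
        (hmono Finset.subset_union_right ht)⟩
    · rintro x _ ⟨s, hs⟩
      exact ⟨s, Subgroup.inv_mem _ hs⟩
  obtain ⟨K, hK, hKt⟩ := hS.compactlyGenerated
  have hopen : ∀ t : Finset ι,
      IsOpen ((Subgroup.closure ((U : Set G) ∪ ⋃ i ∈ t, P i) : Subgroup G) : Set G) := by
    intro t
    apply Subgroup.isOpen_mono _ hU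
    intro x hx
    exact Subgroup.subset_closure (Or.inl hx)
  obtain ⟨T, hT⟩ := hK.elim_finite_subcover
    (fun t : Finset ι => ((Subgroup.closure ((U : Set G) ∪ ⋃ i ∈ t, P i) : Subgroup G) : Set G))
    hopen (by
      intro g _
      obtain ⟨t, ht⟩ := hcover g
      exact Set.mem_iUnion.mpr ⟨t, ht⟩)
  refine ⟨T.sup id, ?_⟩
  rw [eq_top_iff, ← hKt, Subgroup.closure_le]
  intro g hg
  have := hT hg
  rw [Set.mem_iUnion₂] at this
  obtain ⟨t, ht, hgt⟩ := this
  exact hmono (Finset.le_sup (f := id) ht) hgt

/-- a nontrivial normal subgroup together with finitely many of its elements and a compact open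
subgroup generates -/
lemma exists_finset_generate (hS : ClassS G) {U D : Subgroup G} (hU : Op U)
    (hD : ∀ g, cj g D = D) (hD1 : D ≠ ⊥) :
    ∃ t : Finset D, Subgroup.closure ((U : Set G) ∪ ⋃ i ∈ t, {(i : G)}) = ⊤ := by
  apply exists_finset_closure hS hU (P := fun i : D => ({(i : G)} : Set G))
  set T := Subgroup.closure ((U : Set G) ∪ ⋃ i : D, {(i : G)}) with hT
  have hTo : Op T := by
    apply Op.mono hU
    intro x hx
    exact Subgroup.subset_closure (Or.inl hx)
  have hDT : D ≤ T := by
    intro x hx
    apply Subgroup.subset_closure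
    right
    rw [Set.mem_iUnion]
    exact ⟨⟨x, hx⟩, rfl⟩
  have hn : D.topologicalClosure.Normal := by
    have := normal_of_cj hD
    exact Subgroup.is_normal_topologicalClosure D
  rcases hS.simple _ hn D.isClosed_topologicalClosure with h | h
  · exfalso
    apply hD1
    rw [eq_bot_iff, ← h]
    exact D.le_topologicalClosure
  · rw [eq_top_iff, ← h]
    exact D.topologicalClosure_minimal hDT (Subgroup.isClosed_of_isOpen T hTo)

/-- trivial quasi-centre -/
lemma qz_trivial (hS : ClassS G) :
    ∀ x : G, IsOpen ((Subgroup.centralizer {x} : Subgroup G) : Set G) → x = 1 := by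
  classical
  intro x0 hx0
  by_contra hne
  obtain ⟨U, hUo, hUc⟩ := exists_co G
  let D : Subgroup G :=
    { carrier := {x | IsOpen ((Subgroup.centralizer {x} : Subgroup G) : Set G)}
      one_mem' := by
        have : (Subgroup.centralizer {(1 : G)} : Subgroup G) = ⊤ := by
          rw [eq_top_iff]
          intro y _
          rw [Subgroup.mem_centralizer_iff]
          simp
        simp [this]
      mul_mem' := by
        intro a b ha hb
        apply Subgroup.isOpen_mono (H₁ := Subgroup.centralizer {a} ⊓ Subgroup.centralizer {b})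
        · intro y hy
          obtain ⟨h1, h2⟩ := Subgroup.mem_inf.mp hy
          rw [Subgroup.mem_centralizer_iff] at h1 h2 ⊢
          intro h hh
          rw [Set.mem_singleton_iff] at hh
          subst hh
          have e1 := h1 a rfl
          have e2 := h2 b rfl
          rw [mul_assoc, e2, ← mul_assoc, e1, mul_assoc]
        · exact Op.inf ha hb
      inv_mem' := by
        intro a ha
        apply Subgroup.isOpen_mono (H₁ := Subgroup.centralizer {a})
        · intro y hy
          rw [Subgroup.mem_centralizer_iff] at hy ⊢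
          intro h hh
          rw [Set.mem_singleton_iff] at hh
          subst hh
          have e1 := hy a rfl
          have : a⁻¹ * (a * y) * a⁻¹ = a⁻¹ * (y * a) * a⁻¹ := by rw [e1]
          simpa [mul_assoc] using this.symm
        · exact ha }
  have hmemD : ∀ x : G, x ∈ D ↔ IsOpen ((Subgroup.centralizer {x} : Subgroup G) : Set G) :=
    fun x => Iff.rfl
  have hDc : ∀ g : G, D ≤ cj g D := by
    intro g x hx
    rw [mem_cj, hmemD]
    rw [hmemD] at hx
    have h1 := Op.cj (A := Subgroup.centralizer {x}) hx g⁻¹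
    apply Op.mono h1
    intro y hy
    rw [mem_cj, Subgroup.mem_centralizer_iff] at hy
    rw [Subgroup.mem_centralizer_iff]
    intro h hh
    rw [Set.mem_singleton_iff] at hh
    subst hh
    have e := hy x rfl
    simp only [inv_inv] at e
    calc g⁻¹ * x * g * y = g⁻¹ * (x * (g * y * g⁻¹)) * g := by group
      _ = g⁻¹ * (g * y * g⁻¹ * x) * g := by rw [e]
      _ = y * (g⁻¹ * x * g) := by group
  have hDi : ∀ g : G, cj g D = D := by
    intro g
    apply le_antisymm _ (hDc g)
    rw [cj_le_iff]
    exact hDc g⁻¹
  have hD1 : D ≠ ⊥ := by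
    intro h
    apply hne
    have : x0 ∈ D := hx0
    rwa [h, Subgroup.mem_bot] at this
  obtain ⟨t, ht⟩ := exists_finset_generate hS hUo hDi hD1
  -- an open subgroup centralizing `t`
  have hW : Op (sInf ((fun i : D => Subgroup.centralizer {(i : G)}) '' (t : Set D))) := by
    apply op_biInf (t.finite_toSet.image _)
    rintro A ⟨i, _, rfl⟩
    exact i.2
  obtain ⟨M, hMo, hMW, hMU, hMi⟩ := exists_invariant hUc hUo hW
  have hMall : ∀ g : G, cj g M = M := by
    have : No M = ⊤ := by
      rw [eq_top_iff, ← ht, Subgroup.closure_le]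
      rintro x (hx | hx)
      · exact mem_No_iff.mpr (hMi x hx)
      · rw [Set.mem_iUnion₂] at hx
        obtain ⟨i, hi, hxi⟩ := hx
        rw [Set.mem_singleton_iff] at hxi
        subst hxi
        have hc : ∀ m ∈ M, (i : G) * m = m * (i : G) := by
          intro m hm
          have := hMW hm
          rw [Subgroup.mem_sInf] at this
          have := this _ ⟨i, hi, rfl⟩
          rw [Subgroup.mem_centralizer_iff] at this
          exact this i rfl
        rw [SetLike.mem_coe, mem_No_iff]
        ext y
        rw [mem_cj]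
        constructor
        · intro hy
          have := hc _ hy
          have e : y = (i : G)⁻¹ * y * i := by
            have h1 : (i : G) * ((i : G)⁻¹ * y * i) * (i : G)⁻¹ = y := by group
            rw [this] at h1
            have h2 : (i : G)⁻¹ * y * i * i * (i : G)⁻¹ = (i : G)⁻¹ * y * i := by group
            rw [h2] at h1
            exact h1.symm
          rw [e]
          exact hy
        · intro hy
          have := hc _ hy
          have e : (i : G)⁻¹ * y * i = y := by
            rw [mul_assoc, ← this]; group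
          rwa [e]
    intro g
    rw [← mem_No_iff, this]
    exact Subgroup.mem_top g
  have := eq_bot_of_normal_le hS hUc hMall hMU
  rw [this] at hMo
  exact not_op_bot hS hMo

end classS

end Pool.Agent.Lib.H69.Tdlc
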